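import Mathlib
import Pool.Agent.W2helper84.RB.MV
import Pool.Agent.Y93.VK.DB

/-!
# Bilinear Weyl sums with arbitrary coefficients: double Hölder and one Diophantine coefficient
-/

set_option autoImplicit false

namespace Pool.Agent.W2helper84.PB

open Finset Polynomial
open Pool.Agent.V11226.ETN (e e_add e_zero norm_e e_int e_nsmul e_neg conj_e e_add_int)
open Pool.Agent.Y957.VK (J Tu Box nv)
open Pool.Agent.Y93.VK (DD nv_eq DD_mem sum_nv sum_nv_sq hoelder)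
open Pool.Agent.W2helper84.RB (e_sum large_sieve)

/-- the exponential sum over `A` with the coefficients `a` -/
noncomputable def G {r : ℕ} (A : Finset ℕ) (a : Fin r → ℝ) : ℂ :=
  ∑ x ∈ A, e (∑ j : Fin r, a j * (x : ℝ) ^ ((j : ℕ) + 1))

theorem prod_box (r s X : ℕ) : (∏ j : Fin r, s * X ^ ((j : ℕ) + 1)) =
    s ^ r * X ^ (r * (r + 1) / 2) := by
  rw [prod_mul_distrib, prod_const, card_univ, Fintype.card_fin]
  congr 1
  rw [prod_pow_eq_pow_sum]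
  congr 1
  rw [Fin.sum_univ_eq_sum_range (fun j => j + 1) r]
  have h4 : ∑ i ∈ range r, (i + 1) = ∑ i ∈ range (r + 1), i := by
    rw [Finset.sum_range_succ', add_zero]
  rw [h4, Finset.sum_range_id, Nat.add_sub_cancel, mul_comm]

theorem G_pow {r : ℕ} (s : ℕ) (A : Finset ℕ) (a : Fin r → ℝ) :
    G A a ^ s = ∑ x ∈ Fintype.piFinset (fun _ : Fin s => A),
      e (∑ j : Fin r, a j * ((∑ l, x l ^ ((j : ℕ) + 1) : ℕ) : ℝ)) := by
  have h1 : G A a ^ s = ∏ _l : Fin s, G A a := by simp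
  rw [h1]
  unfold G
  rw [Finset.prod_univ_sum]
  refine sum_congr rfl fun x _ => ?_
  rw [← e_sum]
  congr 1
  rw [sum_comm]
  refine sum_congr rfl fun j _ => ?_
  rw [← mul_sum]
  push_cast
  rfl

/-- **Mean value over a family with one well spaced coefficient.** -/
theorem mean_sep {ι : Type*} (r s X : ℕ) (hs : 1 ≤ s) (hX : 1 ≤ X) (A : Finset ℕ)
    (hA : A ⊆ Icc 1 X) (j₀ : Fin r) (Y : Finset ι) (a : ι → Fin r → ℝ)
    (hsep : ∀ y ∈ Y, ∀ y' ∈ Y, y ≠ y' →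
      1 ≤ ((s * X ^ ((j₀ : ℕ) + 1) : ℕ) : ℝ) * RB.dz (a y j₀ - a y' j₀)) :
    ∑ y ∈ Y, ‖G A (a y)‖ ^ (2 * s) ≤
      5 * ((s ^ r * X ^ (r * (r + 1) / 2) : ℕ) : ℝ) * (J s r X : ℝ) := by
  classical
  obtain ⟨M, hM⟩ : ∃ M : ℕ, M = s * X ^ ((j₀ : ℕ) + 1) := ⟨_, rfl⟩
  have hM1 : 1 ≤ M := by
    rw [hM]
    exact Nat.mul_pos hs (pow_pos hX _)
  have hM0 : (0 : ℝ) < M := by exact_mod_cast hM1
  obtain ⟨T, hT⟩ : ∃ T : Finset (Fin s → ℕ), T = Fintype.piFinset (fun _ : Fin s => A) := ⟨_, rfl⟩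
  -- the other power sums
  obtain ⟨pr, hpr⟩ : ∃ pr : (Fin s → ℕ) → Fin r → ℕ, ∀ x j, pr x j =
      if j = j₀ then 0 else ∑ l, x l ^ ((j : ℕ) + 1) :=
    ⟨fun x j => if j = j₀ then 0 else ∑ l, x l ^ ((j : ℕ) + 1), fun _ _ => rfl⟩
  obtain ⟨m, hm⟩ : ∃ m : (Fin s → ℕ) → ℕ, ∀ x, m x = ∑ l, x l ^ ((j₀ : ℕ) + 1) := ⟨_, fun _ => rfl⟩
  obtain ⟨W, hW⟩ : ∃ W : Finset (Fin r → ℕ), W = Fintype.piFinset fun j : Fin r =>
      if j = j₀ then ({0} : Finset ℕ) else Icc 1 (s * X ^ ((j : ℕ) + 1)) := ⟨_, rfl⟩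
  have hTx : ∀ x ∈ T, ∀ l, 1 ≤ x l ∧ x l ≤ X := by
    intro x hx l
    rw [hT, Fintype.mem_piFinset] at hx
    exact mem_Icc.1 (hA (hx l))
  have hTT : T ⊆ Tu s X := by
    intro x hx
    unfold Tu
    rw [Fintype.mem_piFinset]
    exact fun l => mem_Icc.2 (hTx x hx l)
  have hmaps' : ∀ x ∈ Tu s X, pr x ∈ W := by
    intro x hx
    rw [hW, Fintype.mem_piFinset]
    intro j
    rw [hpr]
    split_ifs with hj
    · exact mem_singleton_self _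
    · have h1 : ∀ l, 1 ≤ x l ∧ x l ≤ X := by
        intro l
        unfold Tu at hx
        rw [Fintype.mem_piFinset] at hx
        exact mem_Icc.1 (hx l)
      rw [mem_Icc]
      constructor
      · calc 1 ≤ s := hs
          _ = ∑ _l : Fin s, 1 := by simp
          _ ≤ _ := sum_le_sum fun l _ => Nat.one_le_pow _ _ (h1 l).1
      · calc ∑ l, x l ^ ((j : ℕ) + 1) ≤ ∑ _l : Fin s, X ^ ((j : ℕ) + 1) :=
              sum_le_sum fun l _ => Nat.pow_le_pow_left (h1 l).2 _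
          _ = s * X ^ ((j : ℕ) + 1) := by simp
  have hmaps : ∀ x ∈ T, pr x ∈ W := fun x hx => hmaps' x (hTT hx)
  have hmM : ∀ x ∈ T, m x ≤ M := by
    intro x hx
    rw [hm, hM]
    calc ∑ l, x l ^ ((j₀ : ℕ) + 1) ≤ ∑ _l : Fin s, X ^ ((j₀ : ℕ) + 1) :=
          sum_le_sum fun l _ => Nat.pow_le_pow_left (hTx x hx l).2 _
      _ = s * X ^ ((j₀ : ℕ) + 1) := by simp
  -- one member of the family
  have h1 : ∀ y, ‖G A (a y)‖ ^ (2 * s) ≤
      (W.card : ℝ) * ∑ w ∈ W, ‖∑ x ∈ T.filter (fun x => pr x = w),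
        e (((m x : ℕ) : ℝ) * a y j₀)‖ ^ 2 := by
    intro y
    have h2 : ‖G A (a y)‖ ^ s ≤ ∑ w ∈ W, ‖∑ x ∈ T.filter (fun x => pr x = w),
        e (((m x : ℕ) : ℝ) * a y j₀)‖ := by
      rw [← norm_pow, G_pow, ← hT, ← sum_fiberwise_of_maps_to hmaps]
      refine (norm_sum_le _ _).trans (sum_le_sum fun w _ => ?_)
      obtain ⟨c, hc⟩ : ∃ c : ℝ, c = ∑ j, a y j * ((w j : ℕ) : ℝ) := ⟨_, rfl⟩
      have h3 : ∑ x ∈ T.filter (fun x => pr x = w),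
          e (∑ j : Fin r, a y j * ((∑ l, x l ^ ((j : ℕ) + 1) : ℕ) : ℝ)) =
          e c * ∑ x ∈ T.filter (fun x => pr x = w), e (((m x : ℕ) : ℝ) * a y j₀) := by
        rw [mul_sum]
        refine sum_congr rfl fun x hx => ?_
        rw [← e_add]
        congr 1
        rw [hc, ← (mem_filter.1 hx).2, ← add_sum_erase _ _ (mem_univ j₀),
          ← add_sum_erase (univ : Finset (Fin r)) (fun j => a y j * ((pr x j : ℕ) : ℝ)) (mem_univ j₀)]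
        have h4 : pr x j₀ = 0 := by rw [hpr, if_pos rfl]
        have h5 : ∑ j ∈ univ.erase j₀, a y j * ((pr x j : ℕ) : ℝ) =
            ∑ j ∈ univ.erase j₀, a y j * ((∑ l, x l ^ ((j : ℕ) + 1) : ℕ) : ℝ) := by
          refine sum_congr rfl fun j hj => ?_
          rw [hpr, if_neg (ne_of_mem_erase hj)]
        rw [h4, h5, hm]
        push_cast
        ring
      rw [h3, norm_mul, norm_e, one_mul]
    have h3 := sum_mul_sq_le_sq_mul_sq W (fun _ => (1 : ℝ))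
      (fun w => ‖∑ x ∈ T.filter (fun x => pr x = w), e (((m x : ℕ) : ℝ) * a y j₀)‖)
    simp only [one_mul, one_pow, sum_const, nsmul_eq_mul, mul_one] at h3
    calc ‖G A (a y)‖ ^ (2 * s) = (‖G A (a y)‖ ^ s) ^ 2 := by rw [← pow_mul, mul_comm s 2]
      _ ≤ _ := pow_le_pow_left₀ (by positivity) h2 2
      _ ≤ _ := h3
  have h2 : ∀ w ∈ W, ∑ y ∈ Y, ‖∑ x ∈ T.filter (fun x => pr x = w),
        e (((m x : ℕ) : ℝ) * a y j₀)‖ ^ 2 ≤
      5 * M * ((((Tu s X ×ˢ Tu s X).filter fun z => ∀ j ∈ Icc 1 r,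
        ∑ i, z.1 i ^ j = ∑ i, z.2 i ^ j).filter fun z => pr z.1 = w).card : ℝ) := by
    intro w _
    refine (large_sieve Y (fun y => a y j₀) (1 / M) (by positivity) M hM1
      (by rw [one_div, inv_mul_cancel₀ hM0.ne']) ?_ (T.filter (fun x => pr x = w)) m
      (fun x hx => hmM x (mem_filter.1 hx).1)).trans ?_
    · intro y hy y' hy' hne
      have h3 := hsep y hy y' hy' hne
      rw [← hM] at h3
      rw [div_le_iff₀ hM0, mul_comm]
      exact h3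
    · refine mul_le_mul_of_nonneg_left ?_ (by positivity)
      have h3 : (((T.filter (fun x => pr x = w)) ×ˢ (T.filter (fun x => pr x = w))).filter
          fun z => m z.1 = m z.2) ⊆
          (((Tu s X ×ˢ Tu s X).filter fun z => ∀ j ∈ Icc 1 r,
            ∑ i, z.1 i ^ j = ∑ i, z.2 i ^ j).filter fun z => pr z.1 = w) := by
        intro z hz
        rw [mem_filter, mem_product, mem_filter, mem_filter] at hz
        obtain ⟨⟨⟨h4, h5⟩, h6, h7⟩, h8⟩ := hz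
        rw [mem_filter, mem_filter, mem_product]
        refine ⟨⟨⟨hTT h4, hTT h6⟩, fun j hj => ?_⟩, h5⟩
        rw [mem_Icc] at hj
        by_cases hjd : j = (j₀ : ℕ) + 1
        · rw [hjd, ← hm, ← hm]; exact h8
        · obtain ⟨i, hi⟩ : ∃ i : Fin r, (i : ℕ) + 1 = j := ⟨⟨j - 1, by omega⟩, by simp; omega⟩
          have hij : i ≠ j₀ := by
            intro h9
            apply hjd
            rw [← hi, h9]
          have h9 : pr z.1 i = pr z.2 i := by rw [h5, h7]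
          rw [hpr, hpr, if_neg hij, if_neg hij, hi] at h9
          exact h9
      exact_mod_cast card_le_card h3
  have h3 : ∑ w ∈ W, ((((Tu s X ×ˢ Tu s X).filter fun z => ∀ j ∈ Icc 1 r,
        ∑ i, z.1 i ^ j = ∑ i, z.2 i ^ j).filter fun z => pr z.1 = w).card : ℝ) = (J s r X : ℝ) := by
    unfold J
    rw [card_eq_sum_card_fiberwise (f := fun z : (Fin s → ℕ) × (Fin s → ℕ) => pr z.1) (t := W)]
    · push_cast
      rfl
    · intro z hz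
      rw [mem_coe, mem_filter, mem_product] at hz
      exact mem_coe.2 (hmaps' z.1 hz.1.1)
  have h4 : (W.card : ℝ) * M = ((s ^ r * X ^ (r * (r + 1) / 2) : ℕ) : ℝ) := by
    rw [← prod_box r s X, hW, Fintype.card_piFinset, hM, ← mul_prod_erase univ _ (mem_univ j₀),
      ← mul_prod_erase univ (fun j : Fin r => s * X ^ ((j : ℕ) + 1)) (mem_univ j₀)]
    have h5 : ∏ j ∈ univ.erase j₀, (if j = j₀ then ({0} : Finset ℕ) else Icc 1 (s * X ^ ((j : ℕ) + 1))).card =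
        ∏ j ∈ univ.erase j₀, s * X ^ ((j : ℕ) + 1) := by
      refine prod_congr rfl fun j hj => ?_
      rw [if_neg (ne_of_mem_erase hj), Nat.card_Icc, Nat.add_sub_cancel]
    rw [h5, if_pos rfl, card_singleton]
    push_cast
    ring
  calc ∑ y ∈ Y, ‖G A (a y)‖ ^ (2 * s) ≤
      ∑ y ∈ Y, (W.card : ℝ) * ∑ w ∈ W, ‖∑ x ∈ T.filter (fun x => pr x = w),
        e (((m x : ℕ) : ℝ) * a y j₀)‖ ^ 2 := sum_le_sum fun y _ => h1 y
    _ = (W.card : ℝ) * ∑ w ∈ W, ∑ y ∈ Y, ‖∑ x ∈ T.filter (fun x => pr x = w),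
        e (((m x : ℕ) : ℝ) * a y j₀)‖ ^ 2 := by
        rw [← mul_sum, sum_comm]
    _ ≤ (W.card : ℝ) * ∑ w ∈ W, 5 * M * ((((Tu s X ×ˢ Tu s X).filter fun z => ∀ j ∈ Icc 1 r,
        ∑ i, z.1 i ^ j = ∑ i, z.2 i ^ j).filter fun z => pr z.1 = w).card : ℝ) :=
        mul_le_mul_of_nonneg_left (sum_le_sum h2) (by positivity)
    _ = (W.card : ℝ) * (5 * M * (J s r X : ℝ)) := by rw [← mul_sum, h3]
    _ = 5 * ((W.card : ℝ) * M) * (J s r X : ℝ) := by ring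
    _ = _ := by rw [h4]

/-- the inner sums -/
theorem inner_le {r : ℕ} (s L : ℕ) (A : Finset ℕ) (c : Fin r → ℝ) (b : ℕ → ℂ)
    (hb : ∀ y, ‖b y‖ ≤ 1) :
    ∑ x ∈ A, ‖∑ y ∈ Icc 1 L, b y * e (∑ j : Fin r, c j * ((x : ℝ) * y) ^ ((j : ℕ) + 1))‖ ^ (2 * s) ≤
      ∑ v ∈ Box s r L, (nv s r L v : ℝ) * ‖G A (fun j => c j * v j)‖ := by
  classical
  obtain ⟨g, hg⟩ : ∃ g : ℕ → ℂ, ∀ x, g x = ∑ y ∈ Icc 1 L,
      b y * e (∑ j : Fin r, c j * ((x : ℝ) * y) ^ ((j : ℕ) + 1)) := ⟨_, fun _ => rfl⟩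
  obtain ⟨Bc, hBc⟩ : ∃ Bc : (Fin s → ℕ) → ℂ, ∀ y, Bc y = ∏ i, b (y i) := ⟨_, fun _ => rfl⟩
  have hBc1 : ∀ y, ‖Bc y‖ ≤ 1 := by
    intro y
    rw [hBc, norm_prod]
    exact prod_le_one (fun _ _ => norm_nonneg _) fun i _ => hb _
  have hpow : ∀ x : ℕ, g x ^ s = ∑ y ∈ Tu s L, Bc y *
      e (∑ j : Fin r, c j * (x : ℝ) ^ ((j : ℕ) + 1) * ((∑ i, (y i : ℤ) ^ ((j : ℕ) + 1) : ℤ) : ℝ)) := by
    intro x
    have h1 : g x ^ s = ∏ _l : Fin s, g x := by simp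
    rw [h1]
    simp_rw [hg]
    rw [Finset.prod_univ_sum]
    unfold Tu
    refine sum_congr rfl fun y _ => ?_
    rw [prod_mul_distrib, ← e_sum, hBc]
    congr 2
    rw [sum_comm]
    refine sum_congr rfl fun j _ => ?_
    push_cast
    rw [mul_sum]
    refine sum_congr rfl fun i _ => ?_
    rw [mul_pow]
    ring
  have hnorm : ∀ x : ℕ, ((‖g x‖ ^ (2 * s) : ℝ) : ℂ) = ∑ z ∈ Tu s L ×ˢ Tu s L,
      (Bc z.1 * (starRingEnd ℂ) (Bc z.2)) *
        e (∑ j : Fin r, c j * (DD r z j : ℤ) * (x : ℝ) ^ ((j : ℕ) + 1)) := by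
    intro x
    have h1 : ((‖g x‖ ^ (2 * s) : ℝ) : ℂ) = g x ^ s * (starRingEnd ℂ) (g x ^ s) := by
      rw [Complex.mul_conj', norm_pow]
      push_cast
      rw [← pow_mul, mul_comm]
    rw [h1, hpow, map_sum, Finset.sum_mul_sum, Finset.sum_product]
    refine sum_congr rfl fun y _ => sum_congr rfl fun y' _ => ?_
    rw [map_mul, conj_e]
    have h2 : e (∑ j : Fin r, c j * (DD r (y, y') j : ℤ) * (x : ℝ) ^ ((j : ℕ) + 1)) =
        e (∑ j : Fin r, c j * (x : ℝ) ^ ((j : ℕ) + 1) * ((∑ i, (y i : ℤ) ^ ((j : ℕ) + 1) : ℤ) : ℝ)) *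
        e (-∑ j : Fin r, c j * (x : ℝ) ^ ((j : ℕ) + 1) * ((∑ i, (y' i : ℤ) ^ ((j : ℕ) + 1) : ℤ) : ℝ)) := by
      rw [← e_add]
      congr 1
      rw [← sub_eq_add_neg, ← sum_sub_distrib]
      refine sum_congr rfl fun j _ => ?_
      unfold DD
      push_cast
      ring
    rw [h2]
    ring
  have h1 : ((∑ x ∈ A, ‖g x‖ ^ (2 * s) : ℝ) : ℂ) = ∑ z ∈ Tu s L ×ˢ Tu s L,
      (Bc z.1 * (starRingEnd ℂ) (Bc z.2)) * G A (fun j => c j * (DD r z j : ℤ)) := by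
    rw [Complex.ofReal_sum, sum_congr rfl fun x _ => hnorm x, sum_comm]
    refine sum_congr rfl fun z _ => ?_
    unfold G
    rw [mul_sum]
  have h0 : 0 ≤ ∑ x ∈ A, ‖g x‖ ^ (2 * s) := sum_nonneg fun x _ => by positivity
  have h2 : ∑ x ∈ A, ‖g x‖ ^ (2 * s) = ‖∑ z ∈ Tu s L ×ˢ Tu s L,
      (Bc z.1 * (starRingEnd ℂ) (Bc z.2)) * G A (fun j => c j * (DD r z j : ℤ))‖ := by
    rw [← h1, Complex.norm_real, Real.norm_eq_abs, abs_of_nonneg h0]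
  simp_rw [← hg]
  rw [h2]
  refine (norm_sum_le _ _).trans ?_
  have h3 : ∀ z ∈ Tu s L ×ˢ Tu s L,
      ‖(Bc z.1 * (starRingEnd ℂ) (Bc z.2)) * G A (fun j => c j * (DD r z j : ℤ))‖ ≤
        ‖G A (fun j => c j * (DD r z j : ℤ))‖ := by
    intro z _
    rw [norm_mul, norm_mul, RCLike.norm_conj]
    have h4 : ‖Bc z.1‖ * ‖Bc z.2‖ ≤ 1 := mul_le_one₀ (hBc1 _) (norm_nonneg _) (hBc1 _)
    calc _ ≤ 1 * ‖G A (fun j => c j * (DD r z j : ℤ))‖ :=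
          mul_le_mul_of_nonneg_right h4 (norm_nonneg _)
      _ = _ := one_mul _
  refine (sum_le_sum h3).trans (le_of_eq ?_)
  rw [← sum_fiberwise_of_maps_to (t := Box s r L) (g := DD r) (fun z hz => DD_mem s r L z hz)]
  refine sum_congr rfl fun v _ => ?_
  have h4 : ∀ z ∈ (Tu s L ×ˢ Tu s L).filter (fun z => DD r z = v),
      ‖G A (fun j => c j * (DD r z j : ℤ))‖ = ‖G A (fun j => c j * v j)‖ := fun z hz => by
    rw [(mem_filter.1 hz).2]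
  rw [sum_congr rfl h4, sum_const, nsmul_eq_mul, nv_eq]

/-- the sum over the box -/
theorem box_sum {r : ℕ} (s L X B : ℕ) (hs : 1 ≤ s) (hX : 1 ≤ X) (hL : 1 ≤ L) (hB : 1 ≤ B)
    (A : Finset ℕ) (hA : A ⊆ Icc 1 X) (j₀ : Fin r) (c : Fin r → ℝ)
    (hBL : B ≤ s * L ^ ((j₀ : ℕ) + 1))
    (hsep : ∀ n : ℕ, 1 ≤ n → n < B →
      1 ≤ ((s * X ^ ((j₀ : ℕ) + 1) : ℕ) : ℝ) * RB.dz (c j₀ * n)) :
    (B : ℝ) * ∑ v ∈ Box s r L, ‖G A (fun j => c j * v j)‖ ^ (2 * s) ≤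
      (4 ^ r * (s ^ r * L ^ (r * (r + 1) / 2) : ℕ) : ℝ) *
        (5 * ((s ^ r * X ^ (r * (r + 1) / 2) : ℕ) : ℝ) * (J s r X : ℝ)) := by
  classical
  have hB0 : (0 : ℤ) < B := by exact_mod_cast hB
  obtain ⟨V, hV⟩ : ∃ V : Fin r → ℕ, ∀ j, V j = s * L ^ ((j : ℕ) + 1) := ⟨_, fun _ => rfl⟩
  have hV1 : ∀ j, 1 ≤ V j := by
    intro j
    rw [hV]
    exact Nat.mul_pos hs (pow_pos hL _)
  obtain ⟨key, hkey⟩ : ∃ key : (Fin r → ℤ) → Fin r → ℤ, ∀ v j, key v j =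
      if j = j₀ then v j / (B : ℤ) else v j := ⟨_, fun _ _ => rfl⟩
  obtain ⟨K, hK⟩ : ∃ K : Finset (Fin r → ℤ), K = Fintype.piFinset fun j : Fin r =>
      if j = j₀ then Icc (-((V j / B : ℕ) : ℤ) - 1) ((V j / B : ℕ) : ℤ) else
        Icc (-(V j : ℤ)) (V j : ℤ) := ⟨_, rfl⟩
  have hbox : ∀ v ∈ Box s r L, ∀ j, -(V j : ℤ) ≤ v j ∧ v j ≤ V j := by
    intro v hv j
    unfold Box at hv
    rw [Fintype.mem_piFinset] at hv
    have := mem_Icc.1 (hv j)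
    rw [hV]
    exact this
  have hmaps : ∀ v ∈ Box s r L, key v ∈ K := by
    intro v hv
    rw [hK, Fintype.mem_piFinset]
    intro j
    rw [hkey]
    obtain ⟨h1, h2⟩ := hbox v hv j
    split_ifs with hj
    · rw [mem_Icc]
      have e1 : ((V j / B : ℕ) : ℤ) = (V j : ℤ) / B := by push_cast; rfl
      have h3 : (V j : ℤ) < ((V j : ℤ) / B + 1) * B := Int.lt_ediv_add_one_mul_self _ hB0
      constructor
      · rw [Int.le_ediv_iff_mul_le hB0, e1]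
        nlinarith
      · rw [e1]
        exact Int.ediv_le_ediv hB0 h2
    · exact mem_Icc.2 ⟨h1, h2⟩
  have hfib : ∀ k ∈ K, ∑ v ∈ (Box s r L).filter (fun v => key v = k),
      ‖G A (fun j => c j * v j)‖ ^ (2 * s) ≤
        5 * ((s ^ r * X ^ (r * (r + 1) / 2) : ℕ) : ℝ) * (J s r X : ℝ) := by
    intro k _
    refine mean_sep r s X hs hX A hA j₀ _ (fun (v : Fin r → ℤ) j => c j * v j) ?_
    have hlt : ∀ v ∈ (Box s r L).filter (fun v => key v = k),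
        ∀ v' ∈ (Box s r L).filter (fun v => key v = k), v' j₀ < v j₀ →
        1 ≤ ((s * X ^ ((j₀ : ℕ) + 1) : ℕ) : ℝ) * RB.dz (c j₀ * v j₀ - c j₀ * v' j₀) := by
      intro v hv v' hv' hlt
      have h1 : v j₀ / (B : ℤ) = v' j₀ / (B : ℤ) := by
        have h2 := congrFun (mem_filter.1 hv).2 j₀
        have h3 := congrFun (mem_filter.1 hv').2 j₀
        rw [hkey, if_pos rfl] at h2 h3
        rw [h2, h3]
      obtain ⟨n, hn⟩ : ∃ n : ℕ, (n : ℤ) = v j₀ - v' j₀ :=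
        ⟨(v j₀ - v' j₀).toNat, Int.toNat_of_nonneg (by omega)⟩
      have h2 : v j₀ - v' j₀ < B := by
        have h3 : v j₀ < (v j₀ / (B : ℤ) + 1) * B := Int.lt_ediv_add_one_mul_self _ hB0
        have h4 : v' j₀ / (B : ℤ) * B ≤ v' j₀ := Int.ediv_mul_le _ hB0.ne'
        rw [h1] at h3
        nlinarith
      have h3 := hsep n (by omega) (by omega)
      have h4 : c j₀ * (v j₀ : ℝ) - c j₀ * v' j₀ = c j₀ * n := by
        have h5 : (n : ℝ) = v j₀ - v' j₀ := by exact_mod_cast hn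
        rw [h5]
        ring
      rw [h4]
      exact h3
    intro v hv v' hv' hne
    have hj : v j₀ ≠ v' j₀ := by
      intro h0
      apply hne
      funext j
      by_cases hj : j = j₀
      · rw [hj]; exact h0
      · have h2 := congrFun (mem_filter.1 hv).2 j
        have h3 := congrFun (mem_filter.1 hv').2 j
        rw [hkey, if_neg hj] at h2 h3
        rw [h2, h3]
    rcases lt_or_gt_of_ne hj with h | h
    · rw [← RB.dz_neg, neg_sub]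
      exact hlt v' hv' v hv h
    · exact hlt v hv v' hv' h
  have hKc : (B : ℝ) * (K.card : ℝ) ≤ (4 ^ r * (s ^ r * L ^ (r * (r + 1) / 2) : ℕ) : ℝ) := by
    have h1 : B * K.card ≤ 4 ^ r * (s ^ r * L ^ (r * (r + 1) / 2)) := by
      rw [← prod_box r s L, hK, Fintype.card_piFinset, ← mul_prod_erase univ _ (mem_univ j₀),
        ← mul_prod_erase univ (fun j : Fin r => s * L ^ ((j : ℕ) + 1)) (mem_univ j₀), if_pos rfl]
      have h2 : ∏ j ∈ univ.erase j₀, (if j = j₀ then Icc (-((V j / B : ℕ) : ℤ) - 1) ((V j / B : ℕ) : ℤ)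
          else Icc (-(V j : ℤ)) (V j : ℤ)).card ≤ ∏ j ∈ univ.erase j₀, 4 * (s * L ^ ((j : ℕ) + 1)) := by
        refine prod_le_prod' fun j hj => ?_
        rw [if_neg (ne_of_mem_erase hj), Int.card_Icc, ← hV]
        have := hV1 j
        omega
      have h3 : B * (Icc (-((V j₀ / B : ℕ) : ℤ) - 1) ((V j₀ / B : ℕ) : ℤ)).card ≤ 4 * V j₀ := by
        rw [Int.card_Icc]
        have h4 : (((V j₀ / B : ℕ) : ℤ) + 1 - (-((V j₀ / B : ℕ) : ℤ) - 1)).toNat = 2 * (V j₀ / B) + 2 := by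
          omega
        rw [h4]
        have h5 : B * (V j₀ / B) ≤ V j₀ := Nat.mul_div_le _ _
        have h6 : B ≤ V j₀ := by rw [hV]; exact hBL
        nlinarith
      rw [prod_mul_distrib, prod_const, card_erase_of_mem (mem_univ _), card_univ,
        Fintype.card_fin] at h2
      have h7 : 4 ^ r = 4 * 4 ^ (r - 1) := by
        have : 0 < r := lt_of_le_of_lt (Nat.zero_le _) j₀.2
        rw [← pow_succ']
        congr 1
        omega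
      calc B * ((Icc (-((V j₀ / B : ℕ) : ℤ) - 1) ((V j₀ / B : ℕ) : ℤ)).card *
            ∏ j ∈ univ.erase j₀, (if j = j₀ then Icc (-((V j / B : ℕ) : ℤ) - 1) ((V j / B : ℕ) : ℤ)
          else Icc (-(V j : ℤ)) (V j : ℤ)).card) =
          (B * (Icc (-((V j₀ / B : ℕ) : ℤ) - 1) ((V j₀ / B : ℕ) : ℤ)).card) *
            ∏ j ∈ univ.erase j₀, (if j = j₀ then Icc (-((V j / B : ℕ) : ℤ) - 1) ((V j / B : ℕ) : ℤ)
          else Icc (-(V j : ℤ)) (V j : ℤ)).card := by ring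
        _ ≤ (4 * V j₀) * (4 ^ (r - 1) * ∏ j ∈ univ.erase j₀, s * L ^ ((j : ℕ) + 1)) :=
            Nat.mul_le_mul h3 h2
        _ = _ := by rw [h7, hV]; ring
    exact_mod_cast h1
  have hR : 0 ≤ 5 * ((s ^ r * X ^ (r * (r + 1) / 2) : ℕ) : ℝ) * (J s r X : ℝ) := by positivity
  calc (B : ℝ) * ∑ v ∈ Box s r L, ‖G A (fun j => c j * v j)‖ ^ (2 * s) =
      B * ∑ k ∈ K, ∑ v ∈ (Box s r L).filter (fun v => key v = k),
        ‖G A (fun j => c j * v j)‖ ^ (2 * s) := by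
        rw [sum_fiberwise_of_maps_to hmaps]
    _ ≤ B * ∑ _k ∈ K, 5 * ((s ^ r * X ^ (r * (r + 1) / 2) : ℕ) : ℝ) * (J s r X : ℝ) :=
        mul_le_mul_of_nonneg_left (sum_le_sum hfib) (Nat.cast_nonneg _)
    _ = (B * (K.card : ℝ)) * (5 * ((s ^ r * X ^ (r * (r + 1) / 2) : ℕ) : ℝ) * (J s r X : ℝ)) := by
        rw [sum_const, nsmul_eq_mul]
        ring
    _ ≤ _ := mul_le_mul_of_nonneg_right hKc hR

theorem pow_sum_le' (A : Finset ℕ) (f : ℕ → ℝ) (hf : ∀ x, 0 ≤ f x) (n X : ℕ) (hX : A.card ≤ X) :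
    (∑ x ∈ A, f x) ^ (n + 1) ≤ (X : ℝ) ^ n * ∑ x ∈ A, f x ^ (n + 1) := by
  rcases Nat.eq_zero_or_pos A.card with h0 | h0
  · rw [card_eq_zero] at h0
    rw [h0]
    simp
  · have h := pow_sum_div_card_le_sum_pow (s := A) (f := f) (n := n) (fun x _ => hf x)
    have hc : (0 : ℝ) < A.card := by exact_mod_cast h0
    rw [div_le_iff₀ (by positivity)] at h
    have hX' : (A.card : ℝ) ≤ X := by exact_mod_cast hX
    calc (∑ x ∈ A, f x) ^ (n + 1) ≤ (∑ x ∈ A, f x ^ (n + 1)) * (A.card : ℝ) ^ n := h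
      _ = (A.card : ℝ) ^ n * ∑ x ∈ A, f x ^ (n + 1) := mul_comm _ _
      _ ≤ _ := mul_le_mul_of_nonneg_right (pow_le_pow_left₀ hc.le hX' n)
          (sum_nonneg fun x _ => pow_nonneg (hf x) _)

/-- **Double Hölder.** -/
theorem double {r : ℕ} (s L X B : ℕ) (hs : 1 ≤ s) (hX : 1 ≤ X) (hL : 1 ≤ L) (hB : 1 ≤ B)
    (A : Finset ℕ) (hA : A ⊆ Icc 1 X) (j₀ : Fin r) (c : Fin r → ℝ) (b : ℕ → ℂ)
    (hb : ∀ y, ‖b y‖ ≤ 1) (hBL : B ≤ s * L ^ ((j₀ : ℕ) + 1))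
    (hsep : ∀ n : ℕ, 1 ≤ n → n < B →
      1 ≤ ((s * X ^ ((j₀ : ℕ) + 1) : ℕ) : ℝ) * RB.dz (c j₀ * n)) :
    (B : ℝ) * (∑ x ∈ A, ‖∑ y ∈ Icc 1 L, b y * e (∑ j : Fin r, c j * ((x : ℝ) * y) ^ ((j : ℕ) + 1))‖) ^
        (2 * s * (2 * s)) ≤
      5 * 4 ^ r * ((s : ℝ) ^ r * (s : ℝ) ^ r) * ((X : ℝ) ^ ((2 * s - 1) * (2 * s) + r * (r + 1) / 2) *
        (J s r X : ℝ)) * ((L : ℝ) ^ ((2 * s - 1) * (2 * s) + r * (r + 1) / 2) * (J s r L : ℝ)) := by
  obtain ⟨g, hg⟩ : ∃ g : ℕ → ℝ, ∀ x, g x = ‖∑ y ∈ Icc 1 L,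
      b y * e (∑ j : Fin r, c j * ((x : ℝ) * y) ^ ((j : ℕ) + 1))‖ := ⟨_, fun _ => rfl⟩
  have hg0 : ∀ x, 0 ≤ g x := fun x => by rw [hg]; exact norm_nonneg _
  have h1 : ∑ x ∈ A, g x ^ (2 * s) ≤ ∑ v ∈ Box s r L, (nv s r L v : ℝ) * ‖G A (fun j => c j * v j)‖ := by
    simp_rw [hg]
    exact inner_le s L A c b hb
  simp_rw [← hg]
  have hAc : A.card ≤ X := by
    have := card_le_card hA
    rwa [Nat.card_Icc, Nat.add_sub_cancel] at this
  have h2 : (∑ x ∈ A, g x) ^ (2 * s) ≤ (X : ℝ) ^ (2 * s - 1) * ∑ x ∈ A, g x ^ (2 * s) := by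
    obtain ⟨k, hk⟩ : ∃ k, 2 * s = k + 1 := ⟨2 * s - 1, by omega⟩
    rw [hk, Nat.add_sub_cancel]
    exact pow_sum_le' A g hg0 k X hAc
  obtain ⟨S, hS⟩ : ∃ S : ℝ, S = ∑ v ∈ Box s r L, (nv s r L v : ℝ) * ‖G A (fun j => c j * v j)‖ := ⟨_, rfl⟩
  rw [← hS] at h1
  have hL0 : (0 : ℝ) < L := by exact_mod_cast hL
  have h3 : S ^ (2 * s) ≤ ((L : ℝ) ^ (2 * s)) ^ (2 * s - 2) * (((L : ℝ) ^ (2 * s) * J s r L) *
      ∑ v ∈ Box s r L, ‖G A (fun j => c j * v j)‖ ^ (2 * s)) := by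
    have h4 := hoelder (Box s r L) (fun v => (nv s r L v : ℝ)) (fun v => ‖G A (fun j => c j * v j)‖)
      (fun _ _ => Nat.cast_nonneg _) (fun _ _ => norm_nonneg _)
      (by rw [sum_nv]; positivity) s hs
    rw [sum_nv, ← hS] at h4
    refine h4.trans (mul_le_mul_of_nonneg_left ?_ (by positivity))
    exact mul_le_mul_of_nonneg_right (sum_nv_sq s r L) (sum_nonneg fun _ _ => by positivity)
  have h4 := box_sum s L X B hs hX hL hB A hA j₀ c hBL hsep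
  have hsum0 : 0 ≤ ∑ x ∈ A, g x := sum_nonneg fun x _ => hg0 x
  have h5 : (∑ x ∈ A, g x) ^ (2 * s * (2 * s)) ≤ (X : ℝ) ^ ((2 * s - 1) * (2 * s)) * S ^ (2 * s) := by
    rw [pow_mul]
    calc ((∑ x ∈ A, g x) ^ (2 * s)) ^ (2 * s) ≤ ((X : ℝ) ^ (2 * s - 1) * S) ^ (2 * s) := by
          refine pow_le_pow_left₀ (by positivity) (h2.trans ?_) _
          exact mul_le_mul_of_nonneg_left h1 (by positivity)
      _ = _ := by rw [mul_pow, ← pow_mul]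
  have e1 : ((L : ℝ) ^ (2 * s)) ^ (2 * s - 2) * (L : ℝ) ^ (2 * s) = (L : ℝ) ^ ((2 * s - 1) * (2 * s)) := by
    rw [← pow_mul, ← pow_add]
    congr 1
    obtain ⟨k, rfl⟩ : ∃ k, s = k + 1 := ⟨s - 1, by omega⟩
    have a1 : 2 * (k + 1) - 2 = 2 * k := by omega
    have a2 : 2 * (k + 1) - 1 = 2 * k + 1 := by omega
    rw [a1, a2]
    ring
  calc (B : ℝ) * (∑ x ∈ A, g x) ^ (2 * s * (2 * s)) ≤
      B * ((X : ℝ) ^ ((2 * s - 1) * (2 * s)) * (((L : ℝ) ^ (2 * s)) ^ (2 * s - 2) *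
        (((L : ℝ) ^ (2 * s) * J s r L) * ∑ v ∈ Box s r L, ‖G A (fun j => c j * v j)‖ ^ (2 * s)))) := by
        refine mul_le_mul_of_nonneg_left (h5.trans ?_) (Nat.cast_nonneg _)
        exact mul_le_mul_of_nonneg_left h3 (by positivity)
    _ = (X : ℝ) ^ ((2 * s - 1) * (2 * s)) * ((((L : ℝ) ^ (2 * s)) ^ (2 * s - 2) * (L : ℝ) ^ (2 * s)) *
        J s r L) * (B * ∑ v ∈ Box s r L, ‖G A (fun j => c j * v j)‖ ^ (2 * s)) := by ring
    _ ≤ (X : ℝ) ^ ((2 * s - 1) * (2 * s)) * ((((L : ℝ) ^ (2 * s)) ^ (2 * s - 2) * (L : ℝ) ^ (2 * s)) *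
        J s r L) * ((4 ^ r * (s ^ r * L ^ (r * (r + 1) / 2) : ℕ) : ℝ) *
        (5 * ((s ^ r * X ^ (r * (r + 1) / 2) : ℕ) : ℝ) * (J s r X : ℝ))) :=
        mul_le_mul_of_nonneg_left h4 (by positivity)
    _ = _ := by
        rw [e1]
        push_cast
        rw [pow_add, pow_add]
        ring

end Pool.Agent.W2helper84.PB
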