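import Mathlib
import Pool.Agent.W2helper84.PB.DH
import Pool.Agent.W2helper84.RB.Asy

/-!
# Bilinear Weyl sums of large degree
-/

set_option autoImplicit false

namespace Pool.Agent.W2helper84.PB

open Finset Polynomial Filter
open Pool.Agent.V11226.ETN (e e_add e_zero norm_e e_int e_nsmul e_neg conj_e e_add_int)
open Pool.Agent.Y957.VK (J Tu Box nv)
open Pool.Agent.W2helper84.RB (eta_le vm ev_pow_le ev_const_le ev_dm ev_vm)

theorem s_le_exp (r m s : ℕ) (hr : 2 ≤ r) (hs : s = r ^ 2 + r * m) :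
    (s : ℝ) ≤ Real.exp ((r : ℝ) + m) := by
  have hr2 : (2 : ℝ) ≤ r := by exact_mod_cast hr
  have hm0 : (0 : ℝ) ≤ m := Nat.cast_nonneg m
  have hsR : (s : ℝ) = (r : ℝ) ^ 2 + r * m := by rw [hs]; push_cast; ring
  have h7 := Real.add_one_le_exp (((r : ℝ) + m) / 4)
  have h8 : Real.exp ((r : ℝ) + m) = Real.exp (((r : ℝ) + m) / 4) ^ 4 := by
    rw [← Real.exp_nat_mul]
    congr 1
    push_cast
    ring
  have h9 : (((r : ℝ) + m) / 4 + 1) ^ 4 ≤ Real.exp ((r : ℝ) + m) := by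
    rw [h8]
    exact pow_le_pow_left₀ (by positivity) h7 4
  refine le_trans ?_ h9
  have h10 : (s : ℝ) ≤ ((r : ℝ) + m) ^ 2 := by
    rw [hsR]
    nlinarith [mul_nonneg hm0 hm0, mul_nonneg (show (0 : ℝ) ≤ r by linarith) hm0]
  refine h10.trans ?_
  obtain ⟨x, hx⟩ : ∃ x : ℝ, x = (r : ℝ) + m := ⟨_, rfl⟩
  rw [← hx]
  have hx0 : 0 ≤ x := by rw [hx]; positivity
  have h11 : x ≤ (x / 4 + 1) ^ 2 := by nlinarith [sq_nonneg (x / 4 - 1)]
  calc x ^ 2 ≤ ((x / 4 + 1) ^ 2) ^ 2 := pow_le_pow_left₀ hx0 h11 2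
    _ = (x / 4 + 1) ^ 4 := by ring

/-- one of the two factors -/
theorem factor_le (r m s X : ℕ) (A η : ℝ) (hs : s = r ^ 2 + r * m) (hs1 : 1 ≤ s) (hX : 1 ≤ X)
    (hη : η = (r : ℝ) * (r + 1) / 2 * (1 - 1 / (r : ℝ)) ^ m)
    (hJ : (J (r ^ 2 + r * m) r X : ℝ) ≤ Real.exp A *
      (X : ℝ) ^ (2 * ((r : ℝ) ^ 2 + r * m) - r * (r + 1) / 2 +
        r * (r + 1) / 2 * (1 - 1 / (r : ℝ)) ^ m : ℝ)) :
    (X : ℝ) ^ ((2 * s - 1) * (2 * s) + r * (r + 1) / 2) * (J s r X : ℝ) ≤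
      Real.exp A * ((X : ℝ) ^ (2 * s * (2 * s)) * (X : ℝ) ^ η) := by
  have hX0 : (0 : ℝ) < X := by exact_mod_cast hX
  have hK : ((r * (r + 1) / 2 : ℕ) : ℝ) = (r : ℝ) * (r + 1) / 2 := by
    have h4 : 2 ∣ r * (r + 1) := (Nat.even_mul_succ_self r).two_dvd
    rw [Nat.cast_div h4 (by norm_num)]
    push_cast
    ring
  have hsR : (s : ℝ) = (r : ℝ) ^ 2 + r * m := by rw [hs]; push_cast; ring
  rw [← hs, ← hsR, ← hη] at hJ
  calc (X : ℝ) ^ ((2 * s - 1) * (2 * s) + r * (r + 1) / 2) * (J s r X : ℝ) ≤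
      (X : ℝ) ^ ((2 * s - 1) * (2 * s) + r * (r + 1) / 2) *
        (Real.exp A * (X : ℝ) ^ (2 * (s : ℝ) - r * (r + 1) / 2 + η)) :=
        mul_le_mul_of_nonneg_left hJ (by positivity)
    _ = Real.exp A * ((X : ℝ) ^ ((((2 * s - 1) * (2 * s) + r * (r + 1) / 2 : ℕ)) : ℝ) *
        (X : ℝ) ^ (2 * (s : ℝ) - r * (r + 1) / 2 + η)) := by
        rw [Real.rpow_natCast]
        ring
    _ = Real.exp A * (X : ℝ) ^ (((2 * s * (2 * s) : ℕ) : ℝ) + η) := by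
        rw [← Real.rpow_add hX0]
        congr 2
        obtain ⟨k, hk⟩ : ∃ k, s = k + 1 := ⟨s - 1, by omega⟩
        have a2 : 2 * s - 1 = 2 * k + 1 := by omega
        rw [Nat.cast_add, hK, a2, hk]
        push_cast
        ring
    _ = _ := by
        rw [Real.rpow_add hX0, Real.rpow_natCast]

/-- the size of the bilinear sum, parameters fixed -/
theorem size_bil (r m s X L B : ℕ) (S A γ ℓ : ℝ) (hγ : 0 < γ) (hS : 0 ≤ S) (hr : 2 ≤ r)
    (hs : s = r ^ 2 + r * m) (hX : 1 ≤ X) (hL : 1 ≤ L) (hℓ : 0 ≤ ℓ)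
    (hm : (r : ℝ) * Real.log (4 * (r : ℝ) ^ 2 / γ) ≤ m)
    (hJX : (J (r ^ 2 + r * m) r X : ℝ) ≤ Real.exp A *
      (X : ℝ) ^ (2 * ((r : ℝ) ^ 2 + r * m) - r * (r + 1) / 2 +
        r * (r + 1) / 2 * (1 - 1 / (r : ℝ)) ^ m : ℝ))
    (hJL : (J (r ^ 2 + r * m) r L : ℝ) ≤ Real.exp A *
      (L : ℝ) ^ (2 * ((r : ℝ) ^ 2 + r * m) - r * (r + 1) / 2 +
        r * (r + 1) / 2 * (1 - 1 / (r : ℝ)) ^ m : ℝ))
    (hXL : (X : ℝ) * L ≤ Real.exp (2 * ℓ)) (hB : Real.exp (γ * ℓ) ≤ 2 * B)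
    (h : Real.log 10 + 4 * ((r : ℝ) + m) ^ 2 + 2 * A ≤ γ / 4 * ℓ)
    (hd : (B : ℝ) * S ^ (2 * s * (2 * s)) ≤
      5 * 4 ^ r * ((s : ℝ) ^ r * (s : ℝ) ^ r) * ((X : ℝ) ^ ((2 * s - 1) * (2 * s) + r * (r + 1) / 2) *
        (J s r X : ℝ)) * ((L : ℝ) ^ ((2 * s - 1) * (2 * s) + r * (r + 1) / 2) * (J s r L : ℝ))) :
    S ≤ X * L * Real.exp (-(γ * ℓ / (16 * (s : ℝ) ^ 2))) := by
  have hr2 : (2 : ℝ) ≤ r := by exact_mod_cast hr
  have hm0 : (0 : ℝ) ≤ m := Nat.cast_nonneg m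
  have hs4 : 4 ≤ s := by
    rw [hs]
    nlinarith
  have hs4' : (4 : ℝ) ≤ s := by exact_mod_cast hs4
  have hX0 : (0 : ℝ) < X := by exact_mod_cast hX
  have hL0 : (0 : ℝ) < L := by exact_mod_cast hL
  obtain ⟨η, hη⟩ : ∃ η : ℝ, η = (r : ℝ) * (r + 1) / 2 * (1 - 1 / (r : ℝ)) ^ m := ⟨_, rfl⟩
  have hη1 : η ≤ γ / 4 := by rw [hη]; exact eta_le r m hr γ hγ hm
  have hη0 : 0 ≤ η := by
    rw [hη]
    have : 0 ≤ 1 - 1 / (r : ℝ) := by
      rw [sub_nonneg, div_le_one (by linarith)]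
      linarith
    positivity
  have hfX := factor_le r m s X A η hs (by omega) hX hη hJX
  have hfL := factor_le r m s L A η hs (by omega) hL hη hJL
  have hB0 : 0 < (B : ℝ) := by
    have := Real.exp_pos (γ * ℓ)
    linarith
  -- the constants
  have hsr : (s : ℝ) ^ r ≤ Real.exp (((r : ℝ) + m) ^ 2) := by
    calc (s : ℝ) ^ r ≤ (Real.exp ((r : ℝ) + m)) ^ r :=
          pow_le_pow_left₀ (by positivity) (s_le_exp r m s hr hs) r
      _ = Real.exp (r * ((r : ℝ) + m)) := by rw [← Real.exp_nat_mul]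
      _ ≤ _ := by
          refine Real.exp_le_exp.2 ?_
          rw [sq]
          exact mul_le_mul_of_nonneg_right (by linarith) (by positivity)
  have h4r : (4 : ℝ) ^ r ≤ Real.exp (2 * ((r : ℝ) + m) ^ 2) := by
    have h1 : (4 : ℝ) ≤ Real.exp 2 := by
      have h2 : (2.7182818283 : ℝ) < Real.exp 1 := Real.exp_one_gt_d9
      have h3 : Real.exp 2 = Real.exp 1 * Real.exp 1 := by rw [← Real.exp_add]; norm_num
      rw [h3]
      nlinarith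
    calc (4 : ℝ) ^ r ≤ (Real.exp 2) ^ r := pow_le_pow_left₀ (by norm_num) h1 r
      _ = Real.exp (r * 2) := by rw [← Real.exp_nat_mul]
      _ ≤ _ := by
          refine Real.exp_le_exp.2 ?_
          nlinarith
  have hmain : (B : ℝ) * S ^ (2 * s * (2 * s)) ≤ 5 * Real.exp (4 * ((r : ℝ) + m) ^ 2 + 2 * A) *
      (((X : ℝ) * L) ^ (2 * s * (2 * s)) * ((X : ℝ) * L) ^ η) := by
    refine hd.trans ?_
    calc 5 * 4 ^ r * ((s : ℝ) ^ r * (s : ℝ) ^ r) * ((X : ℝ) ^ ((2 * s - 1) * (2 * s) + r * (r + 1) / 2) *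
        (J s r X : ℝ)) * ((L : ℝ) ^ ((2 * s - 1) * (2 * s) + r * (r + 1) / 2) * (J s r L : ℝ)) ≤
        5 * Real.exp (2 * ((r : ℝ) + m) ^ 2) * (Real.exp (((r : ℝ) + m) ^ 2) * Real.exp (((r : ℝ) + m) ^ 2)) *
          (Real.exp A * ((X : ℝ) ^ (2 * s * (2 * s)) * (X : ℝ) ^ η)) *
          (Real.exp A * ((L : ℝ) ^ (2 * s * (2 * s)) * (L : ℝ) ^ η)) := by
          gcongr
      _ = 5 * (Real.exp (2 * ((r : ℝ) + m) ^ 2) * (Real.exp (((r : ℝ) + m) ^ 2) *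
          Real.exp (((r : ℝ) + m) ^ 2)) * (Real.exp A * Real.exp A)) *
          (((X : ℝ) * L) ^ (2 * s * (2 * s)) * ((X : ℝ) * L) ^ η) := by
          rw [mul_pow, Real.mul_rpow hX0.le hL0.le]
          ring
      _ = _ := by
          rw [← Real.exp_add, ← Real.exp_add, ← Real.exp_add, ← Real.exp_add]
          congr 3
          ring
  have hpow : S ^ (2 * s * (2 * s)) ≤
      (X * L * Real.exp (-(γ * ℓ / (16 * (s : ℝ) ^ 2)))) ^ (2 * s * (2 * s)) := by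
    have h1 : (X * L * Real.exp (-(γ * ℓ / (16 * (s : ℝ) ^ 2)))) ^ (2 * s * (2 * s)) =
        ((X : ℝ) * L) ^ (2 * s * (2 * s)) * Real.exp (-(γ / 4 * ℓ)) := by
      rw [mul_pow, ← Real.exp_nat_mul]
      congr 2
      push_cast
      have hs0 : (s : ℝ) ≠ 0 := by linarith
      field_simp
      ring
    rw [h1]
    have h2 : ((X : ℝ) * L) ^ η ≤ Real.exp (γ / 2 * ℓ) := by
      calc ((X : ℝ) * L) ^ η ≤ (Real.exp (2 * ℓ)) ^ η :=
            Real.rpow_le_rpow (by positivity) hXL hη0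
        _ = Real.exp (2 * ℓ * η) := by rw [← Real.exp_mul]
        _ ≤ _ := by
            refine Real.exp_le_exp.2 ?_
            nlinarith
    have h3 : 5 * Real.exp (4 * ((r : ℝ) + m) ^ 2 + 2 * A) * Real.exp (γ / 2 * ℓ) ≤
        B * Real.exp (-(γ / 4 * ℓ)) := by
      have h4 : 10 * Real.exp (4 * ((r : ℝ) + m) ^ 2 + 2 * A) ≤ Real.exp (γ / 4 * ℓ) := by
        have h5 : 10 * Real.exp (4 * ((r : ℝ) + m) ^ 2 + 2 * A) =
            Real.exp (Real.log 10 + 4 * ((r : ℝ) + m) ^ 2 + 2 * A) := by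
          rw [add_assoc (Real.log 10), Real.exp_add (Real.log 10), Real.exp_log (by norm_num)]
        rw [h5]
        exact Real.exp_le_exp.2 h
      have h5 : Real.exp (γ / 4 * ℓ) * Real.exp (γ / 2 * ℓ) = Real.exp (γ * ℓ) * Real.exp (-(γ / 4 * ℓ)) := by
        rw [← Real.exp_add, ← Real.exp_add]
        congr 1
        ring
      have h6 : 0 < Real.exp (γ / 2 * ℓ) := Real.exp_pos _
      have h7 : 0 < Real.exp (-(γ / 4 * ℓ)) := Real.exp_pos _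
      nlinarith
    have h4 : (B : ℝ) * S ^ (2 * s * (2 * s)) ≤
        B * (((X : ℝ) * L) ^ (2 * s * (2 * s)) * Real.exp (-(γ / 4 * ℓ))) := by
      refine hmain.trans ?_
      calc 5 * Real.exp (4 * ((r : ℝ) + m) ^ 2 + 2 * A) *
          (((X : ℝ) * L) ^ (2 * s * (2 * s)) * ((X : ℝ) * L) ^ η) ≤
          5 * Real.exp (4 * ((r : ℝ) + m) ^ 2 + 2 * A) *
          (((X : ℝ) * L) ^ (2 * s * (2 * s)) * Real.exp (γ / 2 * ℓ)) := by
            gcongr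
        _ = ((X : ℝ) * L) ^ (2 * s * (2 * s)) *
          (5 * Real.exp (4 * ((r : ℝ) + m) ^ 2 + 2 * A) * Real.exp (γ / 2 * ℓ)) := by ring
        _ ≤ ((X : ℝ) * L) ^ (2 * s * (2 * s)) * (B * Real.exp (-(γ / 4 * ℓ))) :=
            mul_le_mul_of_nonneg_left h3 (by positivity)
        _ = _ := by ring
    exact le_of_mul_le_mul_left h4 hB0
  refine (pow_le_pow_iff_left₀ hS (by positivity) ?_).1 hpow
  have : 0 < 2 * s * (2 * s) := by positivity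
  omega

end Pool.Agent.W2helper84.PB
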