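import Mathlib
import Pool.Agent.W2helper84.PB.Siz

/-!
# Bilinear Weyl sums of large degree: asymptotic form
-/

set_option autoImplicit false

namespace Pool.Agent.W2helper84.PB

open Finset Polynomial Filter
open Pool.Agent.V11226.ETN (e e_add e_zero norm_e e_int e_nsmul e_neg conj_e e_add_int)
open Pool.Agent.Y957.VK (J Tu Box nv)
open Pool.Agent.W2helper84.RB (eta_le vm ev_pow_le ev_const_le ev_dm ev_vm dz dz_nonneg)

theorem eval_split (f : ℝ[X]) (r : ℕ) (hr : f.natDegree ≤ r) (z : ℝ) :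
    f.eval z = f.coeff 0 + ∑ j : Fin r, f.coeff ((j : ℕ) + 1) * z ^ ((j : ℕ) + 1) := by
  rw [eval_eq_sum_range' (Nat.lt_succ_of_le hr), sum_range_succ', pow_zero, mul_one, add_comm,
    Fin.sum_univ_eq_sum_range (fun j => f.coeff (j + 1) * z ^ (j + 1)) r]

/-- **Bilinear Weyl sums of large degree with arbitrary coefficients.** -/
theorem bil_asym (κ β β₃ δ : ℝ) (w : ℕ) (hκ : 0 < κ) (hβ : 0 < β) (hκβ : 4 * κ + β < 1)
    (hβ₃ : β₃ < 1) (hδ : 0 < δ) (hδ1 : δ ≤ 1) (hw : 1 ≤ w) :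
    ∃ H₀ : ℕ, ∀ H : ℕ, H₀ ≤ H → ∀ f : ℝ[X], 1 ≤ f.natDegree →
      (f.natDegree : ℝ) ≤ (Real.log H) ^ κ → ∀ P Q : ℝ, 1 ≤ P → P ^ w ≤ (H : ℝ) ^ (δ / 4) →
      0 ≤ Q → Q ≤ Real.exp ((Real.log H) ^ β₃) →
      (∀ n : ℕ, 1 ≤ n → 1 ≤ Q * (P ^ f.natDegree * n) ^ w * dz (f.leadingCoeff * n)) →
      ∀ X L : ℕ, (H : ℝ) ^ δ ≤ X → (H : ℝ) ^ δ ≤ L → (X : ℝ) * L ≤ (H : ℝ) ^ 2 →
      ∀ A ⊆ Icc 1 X, ∀ b : ℕ → ℂ, (∀ y, ‖b y‖ ≤ 1) →
      ∑ x ∈ A, ‖∑ y ∈ Icc 1 L, b y * e (f.eval ((x : ℝ) * y))‖ ≤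
        X * L * Real.exp (-(Real.log H) ^ β) := by
  obtain ⟨γ, hγ⟩ : ∃ γ : ℝ, γ = δ / (4 * w) := ⟨_, rfl⟩
  have hw1 : (1 : ℝ) ≤ w := by exact_mod_cast hw
  have hγ0 : 0 < γ := by rw [hγ]; positivity
  have hγw : γ * w = δ / 4 := by rw [hγ]; field_simp
  have hγδ : γ ≤ δ := by nlinarith
  have hγ1 : γ ≤ 1 := by linarith
  obtain ⟨κ', h1, h2, h3⟩ : ∃ κ' : ℝ, κ < κ' ∧ κ' < 1 / 3 ∧ β < 1 - 4 * κ' := by
    refine ⟨(κ + (1 - β) / 4) / 2, ?_, ?_, ?_⟩ <;> linarith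
  have hlog : Tendsto (fun H : ℕ => Real.log (H : ℝ)) atTop atTop :=
    Real.tendsto_log_atTop.comp tendsto_natCast_atTop_atTop
  have hev : ∀ᶠ x : ℝ in atTop,
      x ^ κ * (Real.log (4 * (x ^ κ) ^ 2 / γ) + 3) ≤ x ^ κ' ∧
      86 * x ^ κ' * ((2 * x ^ κ') ^ 2 * Real.log (2 * x ^ κ')) ≤ (γ / 4) / 8 * x ∧
      128 / γ * x ^ (2 * κ') ≤ x ^ (1 : ℝ) ∧
      32 / γ * Real.log 10 ≤ x ^ (1 : ℝ) ∧
      4 / δ * x ^ β₃ ≤ x ^ (1 : ℝ) ∧
      16 / γ * x ^ β ≤ x ^ (1 - 4 * κ') ∧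
      2 ≤ x ^ κ ∧ 1 ≤ x := by
    filter_upwards [ev_dm κ κ' γ hκ h1 hγ0, ev_vm κ' (γ / 4) (by linarith) h2 (by positivity),
      ev_pow_le (2 * κ') 1 (128 / γ) (by linarith), ev_const_le 1 (32 / γ * Real.log 10) one_pos,
      ev_pow_le β₃ 1 (4 / δ) hβ₃, ev_pow_le β (1 - 4 * κ') (16 / γ) h3,
      ev_const_le κ 2 hκ, eventually_ge_atTop 1]
      with x a1 a2 a3 a4 a5 a6 a7 a8
    exact ⟨a1, a2, a3, a4, a5, a6, a7, a8⟩
  obtain ⟨H₀, hH₀⟩ := eventually_atTop.1 ((hlog.eventually hev).and (eventually_ge_atTop 16))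
  refine ⟨H₀, fun H hH f hf1 hfκ P Q hP hPw hQ0 hQ hdio X L hX hL hXL A hA b hb => ?_⟩
  obtain ⟨⟨a1, a2, a3, a4, a5, a6, a7, a8⟩, hH16⟩ := hH₀ H hH
  obtain ⟨x, hx⟩ : ∃ x : ℝ, x = Real.log H := ⟨_, rfl⟩
  rw [← hx] at a1 a2 a3 a4 a5 a6 a7 a8 hfκ hQ ⊢
  have hx0 : 0 < x := by linarith
  rw [Real.rpow_one] at a3 a4 a5
  have hHR : (16 : ℝ) ≤ H := by exact_mod_cast hH16
  have hH0 : (0 : ℝ) < H := by linarith
  have hHe : (H : ℝ) = Real.exp x := by rw [hx, Real.exp_log hH0]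
  obtain ⟨d, hd⟩ : ∃ d : ℕ, d = f.natDegree := ⟨_, rfl⟩
  rw [← hd] at hf1 hfκ hdio
  have hd1 : (1 : ℝ) ≤ d := by exact_mod_cast hf1
  obtain ⟨r, hr⟩ : ∃ r : ℕ, r = max d 2 := ⟨_, rfl⟩
  have hr2 : 2 ≤ r := by rw [hr]; exact le_max_right _ _
  have hdr : d ≤ r := by rw [hr]; exact le_max_left _ _
  have hr2' : (2 : ℝ) ≤ r := by exact_mod_cast hr2
  have hr0 : (0 : ℝ) < r := by linarith
  have hrκ : (r : ℝ) ≤ x ^ κ := by
    rw [hr]
    push_cast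
    exact max_le hfκ a7
  obtain ⟨j₀, hj₀⟩ : ∃ j₀ : Fin r, (j₀ : ℕ) + 1 = d := ⟨⟨d - 1, by omega⟩, by simp; omega⟩
  obtain ⟨c, hc⟩ : ∃ c : Fin r → ℝ, ∀ j, c j = f.coeff ((j : ℕ) + 1) := ⟨_, fun _ => rfl⟩
  have hcj : c j₀ = f.leadingCoeff := by rw [hc, hj₀, hd]; rfl
  obtain ⟨m, hm⟩ : ∃ m : ℕ, m = ⌈(r : ℝ) * Real.log (4 * (r : ℝ) ^ 2 / γ)⌉₊ := ⟨_, rfl⟩
  have hlg : 0 ≤ Real.log (4 * (r : ℝ) ^ 2 / γ) := by
    apply Real.log_nonneg
    rw [le_div_iff₀ hγ0]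
    nlinarith
  have hm1 : (r : ℝ) * Real.log (4 * (r : ℝ) ^ 2 / γ) ≤ m := by rw [hm]; exact Nat.le_ceil _
  have hm2 : (m : ℝ) ≤ (r : ℝ) * Real.log (4 * (r : ℝ) ^ 2 / γ) + 1 := by
    rw [hm]; exact (Nat.ceil_lt_add_one (by positivity)).le
  have hdm : (r : ℝ) + m ≤ x ^ κ' := by
    refine le_trans ?_ a1
    have h4 : Real.log (4 * (r : ℝ) ^ 2 / γ) ≤ Real.log (4 * (x ^ κ) ^ 2 / γ) := by
      apply Real.log_le_log (by positivity)
      gcongr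
    calc (r : ℝ) + m ≤ r * (Real.log (4 * (r : ℝ) ^ 2 / γ) + 3) := by nlinarith
      _ ≤ x ^ κ * (Real.log (4 * (x ^ κ) ^ 2 / γ) + 3) :=
          mul_le_mul hrκ (by linarith) (by linarith) (by positivity)
  obtain ⟨s, hs⟩ : ∃ s : ℕ, s = r ^ 2 + r * m := ⟨_, rfl⟩
  have hsR : (s : ℝ) = r * (r + m) := by rw [hs]; push_cast; ring
  have hm0 : (0 : ℝ) ≤ m := Nat.cast_nonneg m
  have hs1 : 1 ≤ s := by
    rw [hs]
    nlinarith
  have hs1R : (1 : ℝ) ≤ s := by exact_mod_cast hs1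
  have hsx : (s : ℝ) ≤ x ^ (2 * κ') := by
    calc (s : ℝ) ≤ ((r : ℝ) + m) * (r + m) := by
          rw [hsR]
          exact mul_le_mul_of_nonneg_right (by linarith) (by positivity)
      _ ≤ x ^ κ' * x ^ κ' := mul_le_mul hdm hdm (by positivity) (by positivity)
      _ = x ^ (2 * κ') := by rw [← Real.rpow_add hx0]; congr 1; ring
  have hs2x : (s : ℝ) ^ 2 ≤ x ^ (4 * κ') := by
    calc (s : ℝ) ^ 2 ≤ (x ^ (2 * κ')) ^ 2 := pow_le_pow_left₀ (by linarith) hsx 2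
      _ = x ^ (4 * κ') := by
          rw [← Real.rpow_natCast, ← Real.rpow_mul hx0.le]
          congr 1
          push_cast
          ring
  obtain ⟨B, hB⟩ : ∃ B : ℕ, B = ⌊(H : ℝ) ^ γ⌋₊ := ⟨_, rfl⟩
  have hHγ1 : (1 : ℝ) ≤ (H : ℝ) ^ γ := Real.one_le_rpow (by linarith) hγ0.le
  have hHδ1 : (1 : ℝ) ≤ (H : ℝ) ^ δ := Real.one_le_rpow (by linarith) hδ.le
  have hB1 : 1 ≤ B := by rw [hB]; exact Nat.one_le_floor_iff _ |>.2 hHγ1
  have hB1' : (1 : ℝ) ≤ B := by exact_mod_cast hB1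
  have hB2 : (B : ℝ) ≤ (H : ℝ) ^ γ := by rw [hB]; exact Nat.floor_le (by linarith)
  have hB3 : (H : ℝ) ^ γ ≤ 2 * B := by
    have := Nat.lt_floor_add_one ((H : ℝ) ^ γ)
    rw [← hB] at this
    linarith
  have hX1 : 1 ≤ X := by
    have : (1 : ℝ) ≤ X := hHδ1.trans hX
    exact_mod_cast this
  have hL1 : 1 ≤ L := by
    have : (1 : ℝ) ≤ L := hHδ1.trans hL
    exact_mod_cast this
  have hBL : B ≤ s * L ^ ((j₀ : ℕ) + 1) := by
    have h4 : (B : ℝ) ≤ L := hB2.trans ((Real.rpow_le_rpow_of_exponent_le (by linarith) hγδ).trans hL)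
    have h5 : B ≤ L := by exact_mod_cast h4
    calc B ≤ 1 * L ^ 1 := by rw [one_mul, pow_one]; exact h5
      _ ≤ s * L ^ ((j₀ : ℕ) + 1) := Nat.mul_le_mul hs1 (Nat.pow_le_pow_right hL1 (by omega))
  have hsep : ∀ n : ℕ, 1 ≤ n → n < B →
      1 ≤ ((s * X ^ ((j₀ : ℕ) + 1) : ℕ) : ℝ) * dz (c j₀ * n) := by
    intro n hn hnB
    have h4 := hdio n hn
    rw [← hcj] at h4
    refine h4.trans (mul_le_mul_of_nonneg_right ?_ (dz_nonneg _))
    have hn0 : (0 : ℝ) ≤ n := Nat.cast_nonneg n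
    have hnB' : (n : ℝ) ≤ (H : ℝ) ^ γ := by
      have : (n : ℝ) ≤ B := by exact_mod_cast hnB.le
      linarith
    have e1 : (P ^ d * n) ^ w = (P ^ w) ^ d * (n : ℝ) ^ w := by
      rw [mul_pow, ← pow_mul, ← pow_mul, mul_comm d w]
    have e2 : (P ^ w) ^ d ≤ Real.exp (δ / 4 * x * d) := by
      calc (P ^ w) ^ d ≤ ((H : ℝ) ^ (δ / 4)) ^ d := pow_le_pow_left₀ (by positivity) hPw d
        _ = Real.exp (δ / 4 * x * d) := by
            rw [hHe, ← Real.exp_mul, ← Real.exp_nat_mul]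
            congr 1
            ring
    have e3 : (n : ℝ) ^ w ≤ Real.exp (δ / 4 * x) := by
      calc (n : ℝ) ^ w ≤ ((H : ℝ) ^ γ) ^ w := pow_le_pow_left₀ hn0 hnB' w
        _ = Real.exp (δ / 4 * x) := by
            rw [hHe, ← Real.exp_mul, ← Real.exp_nat_mul, ← hγw]
            congr 1
            ring
    have e4 : Q ≤ Real.exp (δ / 4 * x) := by
      refine hQ.trans (Real.exp_le_exp.2 ?_)
      rw [div_mul_eq_mul_div, div_le_iff₀ hδ] at a5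
      linarith
    have e5 : Real.exp (δ * x * d) ≤ ((s * X ^ ((j₀ : ℕ) + 1) : ℕ) : ℝ) := by
      rw [hj₀]
      push_cast
      have e6 : Real.exp (δ * x * d) = ((H : ℝ) ^ δ) ^ d := by
        rw [hHe, ← Real.exp_mul, ← Real.exp_nat_mul]
        congr 1
        ring
      rw [e6]
      calc ((H : ℝ) ^ δ) ^ d ≤ (X : ℝ) ^ d := pow_le_pow_left₀ (by linarith) hX d
        _ = 1 * (X : ℝ) ^ d := (one_mul _).symm
        _ ≤ s * (X : ℝ) ^ d := mul_le_mul_of_nonneg_right hs1R (by positivity)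
    rw [e1]
    calc Q * ((P ^ w) ^ d * (n : ℝ) ^ w) ≤
        Real.exp (δ / 4 * x) * (Real.exp (δ / 4 * x * d) * Real.exp (δ / 4 * x)) := by
          refine mul_le_mul e4 ?_ (by positivity) (by positivity)
          exact mul_le_mul e2 e3 (by positivity) (by positivity)
      _ = Real.exp (δ / 4 * x + (δ / 4 * x * d + δ / 4 * x)) := by
          rw [← Real.exp_add, ← Real.exp_add]
      _ ≤ Real.exp (δ * x * d) := by
          refine Real.exp_le_exp.2 ?_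
          have : 0 ≤ δ * x * (d - 1) := by
            have : (0 : ℝ) ≤ d - 1 := by linarith
            positivity
          nlinarith
      _ ≤ _ := e5
  have hdb := double s L X B hs1 hX1 hL1 hB1 A hA j₀ c b hb hBL hsep
  have hsum : ∑ x ∈ A, ‖∑ y ∈ Icc 1 L, b y * e (f.eval ((x : ℝ) * y))‖ =
      ∑ x ∈ A, ‖∑ y ∈ Icc 1 L, b y * e (∑ j : Fin r, c j * ((x : ℝ) * y) ^ ((j : ℕ) + 1))‖ := by
    refine sum_congr rfl fun z _ => ?_
    have h4 : ∑ y ∈ Icc 1 L, b y * e (f.eval ((z : ℝ) * y)) = e (f.coeff 0) *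
        ∑ y ∈ Icc 1 L, b y * e (∑ j : Fin r, c j * ((z : ℝ) * y) ^ ((j : ℕ) + 1)) := by
      rw [mul_sum]
      refine sum_congr rfl fun y _ => ?_
      rw [eval_split f r (by omega), e_add]
      simp_rw [hc]
      ring
    rw [h4, norm_mul, norm_e, one_mul]
  rw [hsum]
  have hvX := vm r m X hr2 hX1
  have hvL := vm r m L hr2 hL1
  have hA86 : 86 * (m : ℝ) * (((r : ℝ) + m + 2) ^ 2 * Real.log ((r : ℝ) + m + 2)) ≤ (γ / 4) / 8 * x := by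
    refine le_trans ?_ a2
    have h4 : (r : ℝ) + m + 2 ≤ 2 * x ^ κ' := by linarith
    have h5 : Real.log ((r : ℝ) + m + 2) ≤ Real.log (2 * x ^ κ') :=
      Real.log_le_log (by positivity) h4
    have h6 : 0 ≤ Real.log ((r : ℝ) + m + 2) := Real.log_nonneg (by linarith)
    refine mul_le_mul (mul_le_mul_of_nonneg_left (by linarith) (by norm_num)) ?_ (by positivity)
      (by positivity)
    exact mul_le_mul (pow_le_pow_left₀ (by positivity) h4 2) h5 h6 (by positivity)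
  have hrm2 : ((r : ℝ) + m) ^ 2 ≤ x ^ (2 * κ') := by
    calc ((r : ℝ) + m) ^ 2 ≤ (x ^ κ') ^ 2 := pow_le_pow_left₀ (by positivity) hdm 2
      _ = x ^ (2 * κ') := by
          rw [← Real.rpow_natCast, ← Real.rpow_mul hx0.le]
          congr 1
          push_cast
          ring
  have hsz := size_bil r m s X L B _ _ γ x hγ0 (sum_nonneg fun _ _ => norm_nonneg _) hr2 hs hX1 hL1
    hx0.le hm1 hvX hvL (by
      refine hXL.trans (le_of_eq ?_)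
      rw [hHe, ← Real.exp_nat_mul]
      push_cast
      rfl) (by
      refine le_trans (le_of_eq ?_) hB3
      rw [hHe, ← Real.exp_mul]
      congr 1
      ring) (by
      rw [div_mul_eq_mul_div, div_le_iff₀ hγ0] at a3 a4
      nlinarith) hdb
  refine hsz.trans (mul_le_mul_of_nonneg_left (Real.exp_le_exp.2 ?_) (by positivity))
  rw [neg_le_neg_iff, le_div_iff₀ (by positivity)]
  have h5 : 16 * x ^ β ≤ γ * x ^ (1 - 4 * κ') := by
    rw [div_mul_eq_mul_div, div_le_iff₀ hγ0] at a6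
    linarith
  calc x ^ β * (16 * (s : ℝ) ^ 2) = (16 * x ^ β) * (s : ℝ) ^ 2 := by ring
    _ ≤ (γ * x ^ (1 - 4 * κ')) * x ^ (4 * κ') := mul_le_mul h5 hs2x (by positivity) (by positivity)
    _ = γ * x := by
        rw [mul_assoc, ← Real.rpow_add hx0]
        have : 1 - 4 * κ' + 4 * κ' = 1 := by ring
        rw [this, Real.rpow_one]

end Pool.Agent.W2helper84.PB
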