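import Mathlib
import Pool.Agent.W2helper84.PB.Bil

/-!
# General bilinear sums from bilinear sums with bounded coefficients
-/

set_option autoImplicit false

namespace Pool.Agent.W2helper84.PB

open Finset

/-- a sum over an interval in terms of sums over blocks -/
theorem block_sum (S : Finset ℕ) (T K u v : ℕ) (hT : 1 ≤ T) (hS : ∀ l ∈ S, l / T < K)
    (F : ℕ → ℂ) (hF : ∀ l, ‖F l‖ ≤ 1) :
    ‖∑ l ∈ S.filter (fun l => u < l ∧ l ≤ v), F l‖ ≤
      2 * T + ∑ k ∈ range K, ‖∑ l ∈ S.filter (fun l => l / T = k), F l‖ := by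
  classical
  have hT0 : 0 < T := hT
  rw [← sum_fiberwise_of_maps_to (g := fun l => l / T) (t := range K)
    (fun l hl => mem_range.2 (hS l (mem_filter.1 hl).1))]
  refine (norm_sum_le _ _).trans ?_
  have hcard : ∀ (s : Finset ℕ) (k : ℕ), (∀ l ∈ s, l / T = k) → ‖∑ l ∈ s, F l‖ ≤ T := by
    intro s k hs
    have h1 : s ⊆ Ico (k * T) (k * T + T) := by
      intro l hl
      have h2 := hs l hl
      have h3 := Nat.div_mul_le_self l T
      have h4 := Nat.lt_div_mul_add (a := l) hT0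
      rw [h2] at h3 h4
      exact mem_Ico.2 ⟨h3, h4⟩
    have h2 : (s.card : ℝ) ≤ T := by
      have := card_le_card h1
      rw [Nat.card_Ico, Nat.add_sub_cancel_left] at this
      exact_mod_cast this
    refine (norm_sum_le _ _).trans ((sum_le_sum fun l _ => hF l).trans ?_)
    rw [sum_const, nsmul_eq_mul, mul_one]
    exact h2
  have hT' : (0 : ℝ) ≤ T := Nat.cast_nonneg T
  have key : ∀ k ∈ range K, ‖∑ l ∈ (S.filter (fun l => u < l ∧ l ≤ v)).filter (fun l => l / T = k), F l‖ ≤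
      ‖∑ l ∈ S.filter (fun l => l / T = k), F l‖ +
        ((if k = u / T then (T : ℝ) else 0) + (if k = v / T then (T : ℝ) else 0)) := by
    intro k _
    have h0 : 0 ≤ ‖∑ l ∈ S.filter (fun l => l / T = k), F l‖ := norm_nonneg _
    by_cases h1 : k = u / T
    · have h2 := hcard ((S.filter (fun l => u < l ∧ l ≤ v)).filter (fun l => l / T = k)) k
        (fun l hl => (mem_filter.1 hl).2)
      rw [if_pos h1]
      have h3 : (0 : ℝ) ≤ if k = v / T then (T : ℝ) else 0 := by split_ifs <;> linarith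
      linarith
    · by_cases h2 : k = v / T
      · have h3 := hcard ((S.filter (fun l => u < l ∧ l ≤ v)).filter (fun l => l / T = k)) k
          (fun l hl => (mem_filter.1 hl).2)
        rw [if_neg h1, if_pos h2]
        linarith
      · rw [if_neg h1, if_neg h2, add_zero, add_zero]
        by_cases h3 : u / T < k ∧ k < v / T
        · refine le_of_eq ?_
          congr 2
          ext l
          simp only [mem_filter]
          constructor
          · rintro ⟨⟨h4, -⟩, h5⟩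
            exact ⟨h4, h5⟩
          · rintro ⟨h4, h5⟩
            refine ⟨⟨h4, ?_, ?_⟩, h5⟩
            · by_contra hcon
              push Not at hcon
              have := Nat.div_le_div_right (c := T) hcon
              omega
            · by_contra hcon
              push Not at hcon
              have := Nat.div_le_div_right (c := T) hcon.le
              omega
        · have h4 : (S.filter (fun l => u < l ∧ l ≤ v)).filter (fun l => l / T = k) = ∅ := by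
            rw [filter_eq_empty_iff]
            intro l hl h5
            obtain ⟨-, h6, h7⟩ := mem_filter.1 hl
            have h8 := Nat.div_le_div_right (c := T) h6.le
            have h9 := Nat.div_le_div_right (c := T) h7
            omega
          rw [h4, sum_empty, norm_zero]
          exact h0
  refine (sum_le_sum key).trans ?_
  rw [sum_add_distrib, sum_add_distrib]
  have h1 : ∀ a : ℕ, ∑ k ∈ range K, (if k = a then (T : ℝ) else 0) ≤ T := by
    intro a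
    rw [sum_ite_eq']
    split_ifs
    · exact le_rfl
    · exact hT'
  have h2 := h1 (u / T)
  have h3 := h1 (v / T)
  linarith

/-- from bounded coefficients to coefficients bounded in mean square -/
theorem l2_of_sup (M L : ℕ) (hM : 1 ≤ M) (hL : 1 ≤ L) (K : ℕ → ℕ → ℂ) (hK : ∀ m l, ‖K m l‖ ≤ 1)
    (σ : ℝ) (hσ : 0 < σ)
    (hsup : ∀ b : ℕ → ℂ, (∀ l, ‖b l‖ ≤ 1) →
      ∑ m ∈ Ioc M (2 * M), ‖∑ l ∈ Ioc L (2 * L), b l * K m l‖ ≤ M * L * σ)
    (a b : ℕ → ℂ) (A₂ B₂ : ℝ) (hA : 0 ≤ A₂) (hB : 0 ≤ B₂)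
    (ha : ∑ m ∈ Ioc M (2 * M), ‖a m‖ ^ 2 ≤ A₂ * M) (hb : ∑ l ∈ Ioc L (2 * L), ‖b l‖ ^ 2 ≤ B₂ * L) :
    ‖∑ m ∈ Ioc M (2 * M), ∑ l ∈ Ioc L (2 * L), a m * b l * K m l‖ ^ 2 ≤
      A₂ * B₂ * (2 * √σ * ((M : ℝ) * L) ^ 2) := by
  have hM0 : (0 : ℝ) < M := by exact_mod_cast hM
  have hL0 : (0 : ℝ) < L := by exact_mod_cast hL
  obtain ⟨S, hS⟩ : ∃ S : ℕ → ℂ, ∀ m, S m = ∑ l ∈ Ioc L (2 * L), b l * K m l := ⟨_, fun _ => rfl⟩
  have hcardL : ((Ioc L (2 * L)).card : ℝ) = L := by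
    rw [Nat.card_Ioc]
    have : 2 * L - L = L := by omega
    rw [this]
  have hcardM : ((Ioc M (2 * M)).card : ℝ) = M := by
    rw [Nat.card_Ioc]
    have : 2 * M - M = M := by omega
    rw [this]
  -- the norm of one sum
  have hb1 : (∑ l ∈ Ioc L (2 * L), ‖b l‖) ^ 2 ≤ (√B₂ * L) ^ 2 := by
    have h1 := sum_mul_sq_le_sq_mul_sq (Ioc L (2 * L)) (fun _ => (1 : ℝ)) (fun l => ‖b l‖)
    simp only [one_mul, one_pow, sum_const, nsmul_eq_mul, mul_one] at h1
    rw [hcardL] at h1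
    rw [mul_pow, Real.sq_sqrt hB]
    calc _ ≤ (L : ℝ) * ∑ l ∈ Ioc L (2 * L), ‖b l‖ ^ 2 := h1
      _ ≤ L * (B₂ * L) := mul_le_mul_of_nonneg_left hb hL0.le
      _ = _ := by ring
  have hb2 : ∑ l ∈ Ioc L (2 * L), ‖b l‖ ≤ √B₂ * L :=
    (pow_le_pow_iff_left₀ (sum_nonneg fun _ _ => norm_nonneg _) (by positivity) two_ne_zero).1 hb1
  have hSle : ∀ m, ‖S m‖ ≤ √B₂ * L := by
    intro m
    rw [hS]
    refine (norm_sum_le _ _).trans (le_trans (sum_le_sum fun l _ => ?_) hb2)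
    rw [norm_mul]
    calc ‖b l‖ * ‖K m l‖ ≤ ‖b l‖ * 1 := mul_le_mul_of_nonneg_left (hK m l) (norm_nonneg _)
      _ = ‖b l‖ := mul_one _
  -- the sum of the norms
  have hSsum : ∑ m ∈ Ioc M (2 * M), ‖S m‖ ≤ 2 * (M * L * (√B₂ * √σ)) := by
    rcases eq_or_lt_of_le hB with h0 | h0
    · have h1 : ∀ m, ‖S m‖ ≤ 0 := by
        intro m
        have := hSle m
        rw [← h0, Real.sqrt_zero, zero_mul] at this
        exact this
      calc ∑ m ∈ Ioc M (2 * M), ‖S m‖ ≤ ∑ _m ∈ Ioc M (2 * M), (0 : ℝ) := sum_le_sum fun m _ => h1 m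
        _ = 0 := by simp
        _ ≤ _ := by positivity
    · obtain ⟨τ, hτ⟩ : ∃ τ : ℝ, τ = √B₂ / √σ := ⟨_, rfl⟩
      have hsB : 0 < √B₂ := Real.sqrt_pos.2 h0
      have hsσ : 0 < √σ := Real.sqrt_pos.2 hσ
      have hτ0 : 0 < τ := by rw [hτ]; positivity
      obtain ⟨b', hb'⟩ : ∃ b' : ℕ → ℂ, ∀ l, b' l = if ‖b l‖ ≤ τ then b l / τ else 0 := ⟨_, fun _ => rfl⟩
      obtain ⟨b'', hb''⟩ : ∃ b'' : ℕ → ℂ, ∀ l, b'' l = if ‖b l‖ ≤ τ then 0 else b l := ⟨_, fun _ => rfl⟩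
      have hbb : ∀ l, b l = τ * b' l + b'' l := by
        intro l
        rw [hb', hb'']
        have : (τ : ℂ) ≠ 0 := by exact_mod_cast hτ0.ne'
        split_ifs
        · field_simp
          ring
        · ring
      have hb'1 : ∀ l, ‖b' l‖ ≤ 1 := by
        intro l
        rw [hb']
        split_ifs with h
        · rw [norm_div, Complex.norm_real, Real.norm_of_nonneg hτ0.le, div_le_one hτ0]
          exact h
        · rw [norm_zero]
          exact zero_le_one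
      have hb''1 : ∀ l, ‖b'' l‖ ≤ ‖b l‖ ^ 2 / τ := by
        intro l
        rw [hb'']
        split_ifs with h
        · rw [norm_zero]
          positivity
        · push Not at h
          rw [le_div_iff₀ hτ0, sq]
          exact mul_le_mul_of_nonneg_left h.le (norm_nonneg _)
      have h1 := hsup b' hb'1
      have h2 : ∀ m, ‖S m‖ ≤ τ * ‖∑ l ∈ Ioc L (2 * L), b' l * K m l‖ + B₂ * L / τ := by
        intro m
        have h3 : S m = τ * ∑ l ∈ Ioc L (2 * L), b' l * K m l + ∑ l ∈ Ioc L (2 * L), b'' l * K m l := by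
          rw [hS, mul_sum, ← sum_add_distrib]
          refine sum_congr rfl fun l _ => ?_
          rw [hbb l]
          ring
        rw [h3]
        refine (norm_add_le _ _).trans (add_le_add ?_ ?_)
        · rw [norm_mul, Complex.norm_real, Real.norm_of_nonneg hτ0.le]
        · refine (norm_sum_le _ _).trans ?_
          calc ∑ l ∈ Ioc L (2 * L), ‖b'' l * K m l‖ ≤ ∑ l ∈ Ioc L (2 * L), ‖b l‖ ^ 2 / τ := by
                refine sum_le_sum fun l _ => ?_
                rw [norm_mul]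
                calc ‖b'' l‖ * ‖K m l‖ ≤ ‖b'' l‖ * 1 :=
                      mul_le_mul_of_nonneg_left (hK m l) (norm_nonneg _)
                  _ = ‖b'' l‖ := mul_one _
                  _ ≤ _ := hb''1 l
            _ = (∑ l ∈ Ioc L (2 * L), ‖b l‖ ^ 2) / τ := by rw [sum_div]
            _ ≤ B₂ * L / τ := div_le_div_of_nonneg_right hb hτ0.le
      calc ∑ m ∈ Ioc M (2 * M), ‖S m‖ ≤
          ∑ m ∈ Ioc M (2 * M), (τ * ‖∑ l ∈ Ioc L (2 * L), b' l * K m l‖ + B₂ * L / τ) :=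
            sum_le_sum fun m _ => h2 m
        _ = τ * ∑ m ∈ Ioc M (2 * M), ‖∑ l ∈ Ioc L (2 * L), b' l * K m l‖ + M * (B₂ * L / τ) := by
            rw [sum_add_distrib, ← mul_sum, sum_const, nsmul_eq_mul, hcardM]
        _ ≤ τ * (M * L * σ) + M * (B₂ * L / τ) := by
            have := mul_le_mul_of_nonneg_left h1 hτ0.le
            linarith
        _ = _ := by
            have e1 : τ * σ = √B₂ * √σ := by
              rw [hτ]
              have : σ = √σ * √σ := (Real.mul_self_sqrt hσ.le).symm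
              nth_rewrite 2 [this]
              field_simp
            have e2 : B₂ / τ = √B₂ * √σ := by
              rw [hτ]
              have : B₂ = √B₂ * √B₂ := (Real.mul_self_sqrt hB).symm
              nth_rewrite 1 [this]
              field_simp
            calc τ * (M * L * σ) + M * (B₂ * L / τ) = M * L * (τ * σ) + M * L * (B₂ / τ) := by ring
              _ = _ := by rw [e1, e2]; ring
  have hS2 : ∑ m ∈ Ioc M (2 * M), ‖S m‖ ^ 2 ≤ 2 * B₂ * √σ * (M * (L : ℝ) ^ 2) := by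
    calc ∑ m ∈ Ioc M (2 * M), ‖S m‖ ^ 2 ≤ ∑ m ∈ Ioc M (2 * M), (√B₂ * L) * ‖S m‖ := by
          refine sum_le_sum fun m _ => ?_
          rw [sq]
          exact mul_le_mul_of_nonneg_right (hSle m) (norm_nonneg _)
      _ = (√B₂ * L) * ∑ m ∈ Ioc M (2 * M), ‖S m‖ := by rw [mul_sum]
      _ ≤ (√B₂ * L) * (2 * (M * L * (√B₂ * √σ))) :=
          mul_le_mul_of_nonneg_left hSsum (by positivity)
      _ = 2 * (√B₂ * √B₂) * √σ * (M * (L : ℝ) ^ 2) := by ring
      _ = _ := by rw [Real.mul_self_sqrt hB]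
  have h1 : ∑ m ∈ Ioc M (2 * M), ∑ l ∈ Ioc L (2 * L), a m * b l * K m l =
      ∑ m ∈ Ioc M (2 * M), a m * S m := by
    refine sum_congr rfl fun m _ => ?_
    rw [hS, mul_sum]
    refine sum_congr rfl fun l _ => ?_
    ring
  rw [h1]
  have h2 : ‖∑ m ∈ Ioc M (2 * M), a m * S m‖ ≤ ∑ m ∈ Ioc M (2 * M), ‖a m‖ * ‖S m‖ := by
    refine (norm_sum_le _ _).trans (le_of_eq ?_)
    exact sum_congr rfl fun m _ => norm_mul _ _
  have h3 := sum_mul_sq_le_sq_mul_sq (Ioc M (2 * M)) (fun m => ‖a m‖) (fun m => ‖S m‖)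
  calc ‖∑ m ∈ Ioc M (2 * M), a m * S m‖ ^ 2 ≤ (∑ m ∈ Ioc M (2 * M), ‖a m‖ * ‖S m‖) ^ 2 :=
        pow_le_pow_left₀ (norm_nonneg _) h2 2
    _ ≤ _ := h3
    _ ≤ (A₂ * M) * (2 * B₂ * √σ * (M * (L : ℝ) ^ 2)) :=
        mul_le_mul ha hS2 (sum_nonneg fun _ _ => by positivity) (by positivity)
    _ = _ := by ring

/-- shifts by products -/
theorem shift_prod (F : ℕ → ℂ) (hF : ∀ t, ‖F t‖ ≤ 1) (u v Z : ℕ) (huv : u ≤ v) (hZ : 1 ≤ Z) (σ : ℝ)
    (h : ∀ l, ∑ x ∈ Icc 1 Z, ‖∑ y ∈ Icc 1 Z, F (l + x * y)‖ ≤ Z * Z * σ) :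
    ‖∑ l ∈ Ioc u v, F l‖ ≤ (v - u) * σ + 2 * ((Z : ℝ) * Z) := by
  have hZ0 : (0 : ℝ) < Z := by exact_mod_cast hZ
  have hshift : ∀ y : ℕ, ‖∑ l ∈ Ioc u v, F l - ∑ l ∈ Ioc u v, F (l + y)‖ ≤ 2 * y := by
    intro y
    have h1 := RB.shift_le (fun t => F (t + u)) (fun t => hF _) (v - u) y
    have e : ∀ G : ℕ → ℂ, ∑ t ∈ Icc 1 (v - u), G (t + u) = ∑ l ∈ Ioc u v, G l := by
      intro G
      have e1 := Finset.sum_Ico_add' G 1 (v - u + 1) u
      have e2 : Icc 1 (v - u) = Ico 1 (v - u + 1) := rfl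
      rw [e2, e1]
      refine sum_congr ?_ fun _ _ => rfl
      ext l
      rw [mem_Ico, mem_Ioc]
      omega
    have e3 : ∑ t ∈ Icc 1 (v - u), F (t + y + u) = ∑ l ∈ Ioc u v, F (l + y) := by
      rw [← e (fun l => F (l + y))]
      refine sum_congr rfl fun t _ => ?_
      congr 1
      ring
    rw [e F, e3] at h1
    exact h1
  obtain ⟨S, hS⟩ : ∃ S : ℂ, S = ∑ l ∈ Ioc u v, F l := ⟨_, rfl⟩
  rw [← hS] at hshift ⊢
  have h1 : (Z : ℝ) * Z * ‖S‖ ≤ Z * Z * ((v - u) * σ + 2 * ((Z : ℝ) * Z)) := by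
    have h2 : (Z : ℂ) * Z * S = ∑ x ∈ Icc 1 Z, ∑ y ∈ Icc 1 Z, (S - ∑ l ∈ Ioc u v, F (l + x * y)) +
        ∑ l ∈ Ioc u v, ∑ x ∈ Icc 1 Z, ∑ y ∈ Icc 1 Z, F (l + x * y) := by
      have h3 : ∑ l ∈ Ioc u v, ∑ x ∈ Icc 1 Z, ∑ y ∈ Icc 1 Z, F (l + x * y) =
          ∑ x ∈ Icc 1 Z, ∑ y ∈ Icc 1 Z, ∑ l ∈ Ioc u v, F (l + x * y) := by
        rw [sum_comm]
        refine sum_congr rfl fun x _ => ?_
        rw [sum_comm]
      rw [h3, ← sum_add_distrib]
      have h4 : ∀ x ∈ Icc 1 Z, ∑ y ∈ Icc 1 Z, (S - ∑ l ∈ Ioc u v, F (l + x * y)) +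
          ∑ y ∈ Icc 1 Z, ∑ l ∈ Ioc u v, F (l + x * y) = Z * S := by
        intro x _
        rw [← sum_add_distrib]
        simp
      rw [sum_congr rfl h4]
      simp
      ring
    have h3 : (Z : ℝ) * Z * ‖S‖ = ‖(Z : ℂ) * Z * S‖ := by
      rw [norm_mul, norm_mul, Complex.norm_natCast]
    rw [h3, h2]
    refine (norm_add_le _ _).trans ?_
    have h4 : ‖∑ x ∈ Icc 1 Z, ∑ y ∈ Icc 1 Z, (S - ∑ l ∈ Ioc u v, F (l + x * y))‖ ≤
        Z * Z * (2 * ((Z : ℝ) * Z)) := by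
      refine (norm_sum_le _ _).trans ?_
      calc ∑ x ∈ Icc 1 Z, ‖∑ y ∈ Icc 1 Z, (S - ∑ l ∈ Ioc u v, F (l + x * y))‖ ≤
          ∑ x ∈ Icc 1 Z, ∑ y ∈ Icc 1 Z, 2 * ((Z : ℝ) * Z) := by
            refine sum_le_sum fun x hx => (norm_sum_le _ _).trans (sum_le_sum fun y hy => ?_)
            refine (hshift (x * y)).trans ?_
            rw [mem_Icc] at hx hy
            have : ((x * y : ℕ) : ℝ) ≤ (Z : ℝ) * Z := by
              exact_mod_cast Nat.mul_le_mul hx.2 hy.2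
            linarith
        _ = _ := by
            rw [sum_const, sum_const, Nat.card_Icc, Nat.add_sub_cancel, nsmul_eq_mul, nsmul_eq_mul]
            ring
    have h5 : ‖∑ l ∈ Ioc u v, ∑ x ∈ Icc 1 Z, ∑ y ∈ Icc 1 Z, F (l + x * y)‖ ≤
        (v - u) * (Z * Z * σ) := by
      refine (norm_sum_le _ _).trans ?_
      calc ∑ l ∈ Ioc u v, ‖∑ x ∈ Icc 1 Z, ∑ y ∈ Icc 1 Z, F (l + x * y)‖ ≤
          ∑ _l ∈ Ioc u v, (Z * Z * σ : ℝ) :=
            sum_le_sum fun l _ => (norm_sum_le _ _).trans (h l)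
        _ = _ := by
            rw [sum_const, Nat.card_Ioc, nsmul_eq_mul, Nat.cast_sub huv]
    calc _ ≤ Z * Z * (2 * ((Z : ℝ) * Z)) + (v - u) * (Z * Z * σ) := add_le_add h4 h5
      _ = _ := by ring
  exact le_of_mul_le_mul_left h1 (by positivity)

end Pool.Agent.W2helper84.PB
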