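import Mathlib
import Pool.Agent.W2helper84.PB.TII
import Pool.Agent.H373R2.T7.Vau

/-!
# Polynomials of large degree at primes: one segment
-/

set_option autoImplicit false

namespace Pool.Agent.W2helper84.PB

open Finset Polynomial Filter
open Pool.Agent.V11226.ETN (e e_add e_zero norm_e e_int e_nsmul e_neg conj_e e_add_int)
open Pool.Agent.W2helper84.RB (ev_pow_le ev_const_le dz dz_nonneg)

/-- exponentials win -/
theorem ev_small (K c : ℝ) (n : ℕ) (a b : ℝ) (hab : a < b) (hb : 0 < b) (hc : 0 < c) :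
    ∀ᶠ x : ℝ in atTop, K * x ^ n * Real.exp (-(c * x ^ b)) ≤ Real.exp (-x ^ a) := by
  have h1 : (fun x : ℝ => Real.log x) =o[atTop] fun x : ℝ => x ^ b := isLittleO_log_rpow_atTop hb
  have h2 := h1.bound (show (0 : ℝ) < c / (3 * (n + 1)) by positivity)
  filter_upwards [h2, eventually_ge_atTop 1, ev_const_le b (3 / c * Real.log (max K 1)) hb,
    ev_pow_le a b (3 / c) hab] with x hx hx1 hx2 hx3
  have hx0 : (0 : ℝ) < x := by linarith
  have hlog : 0 ≤ Real.log x := Real.log_nonneg hx1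
  rw [Real.norm_of_nonneg hlog, Real.norm_of_nonneg (Real.rpow_nonneg hx0.le _)] at hx
  have hK : (0 : ℝ) < max K 1 := lt_of_lt_of_le one_pos (le_max_right _ _)
  have e1 : K * x ^ n ≤ Real.exp (Real.log (max K 1) + n * Real.log x) := by
    rw [Real.exp_add, Real.exp_log hK, Real.exp_nat_mul, Real.exp_log hx0]
    exact mul_le_mul_of_nonneg_right (le_max_left _ _) (by positivity)
  have e2 : n * Real.log x ≤ c / 3 * x ^ b := by
    have hn : (0 : ℝ) ≤ n := Nat.cast_nonneg n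
    calc n * Real.log x ≤ (n + 1) * Real.log x := mul_le_mul_of_nonneg_right (by linarith) hlog
      _ ≤ (n + 1) * (c / (3 * (n + 1)) * x ^ b) := mul_le_mul_of_nonneg_left hx (by positivity)
      _ = c / 3 * x ^ b := by field_simp
  have e3 : Real.log (max K 1) ≤ c / 3 * x ^ b := by
    rw [div_mul_eq_mul_div, div_le_iff₀ hc] at hx2
    linarith
  have e4 : x ^ a ≤ c / 3 * x ^ b := by
    rw [div_mul_eq_mul_div, div_le_iff₀ hc] at hx3
    linarith
  calc K * x ^ n * Real.exp (-(c * x ^ b)) ≤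
      Real.exp (Real.log (max K 1) + n * Real.log x) * Real.exp (-(c * x ^ b)) :=
        mul_le_mul_of_nonneg_right e1 (Real.exp_nonneg _)
    _ = Real.exp (Real.log (max K 1) + n * Real.log x + -(c * x ^ b)) := by rw [← Real.exp_add]
    _ ≤ _ := Real.exp_le_exp.2 (by linarith)

/-- sums over a segment of multiples -/
theorem typeI (f : ℝ[X]) (m N N' Z b : ℕ) (σ : ℝ) (hσ : 0 ≤ σ) (hm : 1 ≤ m) (hZ : 1 ≤ Z)
    (hb : b ≤ N' / m)
    (h : ∀ l : ℕ, ∑ x ∈ Icc 1 Z, ‖∑ y ∈ Icc 1 Z, e (f.eval (((m * (l + x * y) : ℕ)) : ℝ))‖ ≤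
      Z * Z * σ) :
    ‖∑ l ∈ Ioc (N / m) b, e (f.eval (((m * l : ℕ)) : ℝ))‖ ≤ N' * σ / m + 2 * ((Z : ℝ) * Z) := by
  have hm0 : (0 : ℝ) < m := by exact_mod_cast hm
  have hN' : (0 : ℝ) ≤ N' := Nat.cast_nonneg _
  rcases le_or_gt (N / m) b with h1 | h1
  · have h2 := shift_prod (fun l => e (f.eval (((m * l : ℕ)) : ℝ))) (fun t => (norm_e _).le) (N / m) b Z
      h1 hZ σ h
    refine h2.trans (add_le_add ?_ le_rfl)
    have h3 : (b : ℝ) - ((N / m : ℕ) : ℝ) ≤ N' / m := by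
      have h4 : (b : ℝ) ≤ ((N' / m : ℕ) : ℝ) := by exact_mod_cast hb
      have h5 : ((N' / m : ℕ) : ℝ) ≤ N' / m := Nat.cast_div_le
      have h6 : (0 : ℝ) ≤ ((N / m : ℕ) : ℝ) := Nat.cast_nonneg _
      linarith
    calc ((b : ℝ) - ((N / m : ℕ) : ℝ)) * σ ≤ N' / m * σ := mul_le_mul_of_nonneg_right h3 hσ
      _ = N' * σ / m := by ring
  · rw [Ioc_eq_empty (by omega), sum_empty, norm_zero]
    positivity

/-- sums with two variables in dyadic intervals -/
theorem typeII (f : ℝ[X]) (N N' M L : ℕ) (σ : ℝ) (hσ : 0 < σ) (hσ1 : σ ≤ 1) (hM : 1 ≤ M)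
    (hL : 1 ≤ L) (hLσ : 1 ≤ √σ * L)
    (h : ∀ b : ℕ → ℂ, (∀ y, ‖b y‖ ≤ 1) →
      ∑ x ∈ Ioc M (2 * M), ‖∑ y ∈ Icc 1 (2 * L), b y * e (f.eval ((x : ℝ) * y))‖ ≤
        (2 * M : ℕ) * (2 * L : ℕ) * σ) (b : ℕ → ℂ) (hb : ∀ l, ‖b l‖ ≤ 1) :
    ∑ m ∈ Ioc M (2 * M), ‖∑ l ∈ Ioc L (2 * L), b l *
      (if N < m * l ∧ m * l ≤ N' then e (f.eval (((m * l : ℕ)) : ℝ)) else 0)‖ ≤
      M * L * (16 * √σ) := by
  classical
  have hM0 : (0 : ℝ) < M := by exact_mod_cast hM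
  have hL0 : (0 : ℝ) < L := by exact_mod_cast hL
  have hs0 : 0 < √σ := Real.sqrt_pos.2 hσ
  have hs1 : √σ ≤ 1 := Real.sqrt_le_one.2 hσ1 |> fun h => h
  have hss : √σ * √σ = σ := Real.mul_self_sqrt hσ.le
  obtain ⟨T, hT⟩ : ∃ T : ℕ, T = ⌈L * √σ⌉₊ := ⟨_, rfl⟩
  have hT1 : (L : ℝ) * √σ ≤ T := by rw [hT]; exact Nat.le_ceil _
  have hT2 : (T : ℝ) ≤ L * √σ + 1 := by rw [hT]; exact (Nat.ceil_lt_add_one (by positivity)).le
  have hT0 : 1 ≤ T := by
    have : (0 : ℝ) < T := lt_of_lt_of_le (by positivity) hT1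
    exact_mod_cast this
  obtain ⟨K, hK⟩ : ∃ K : ℕ, K = 2 * L / T + 1 := ⟨_, rfl⟩
  have hKR : (K : ℝ) * √σ ≤ 3 := by
    have h1 : ((2 * L / T : ℕ) : ℝ) ≤ ((2 * L : ℕ) : ℝ) / T := Nat.cast_div_le
    have hT0' : (0 : ℝ) < T := by exact_mod_cast hT0
    have h2 : ((2 * L : ℕ) : ℝ) / T * √σ ≤ 2 := by
      rw [div_mul_eq_mul_div, div_le_iff₀ hT0']
      push_cast
      nlinarith
    rw [hK]
    push_cast at h1 h2 ⊢
    nlinarith
  obtain ⟨bk, hbk⟩ : ∃ bk : ℕ → ℕ → ℂ, ∀ k l, bk k l =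
      if l ∈ Ioc L (2 * L) ∧ l / T = k then b l else 0 := ⟨_, fun _ _ => rfl⟩
  have hbk1 : ∀ k l, ‖bk k l‖ ≤ 1 := by
    intro k l
    rw [hbk]
    split_ifs
    · exact hb l
    · rw [norm_zero]; exact zero_le_one
  have hone : ∀ m ∈ Ioc M (2 * M), ‖∑ l ∈ Ioc L (2 * L), b l *
      (if N < m * l ∧ m * l ≤ N' then e (f.eval (((m * l : ℕ)) : ℝ)) else 0)‖ ≤
      2 * T + ∑ k ∈ range K, ‖∑ y ∈ Icc 1 (2 * L), bk k y * e (f.eval ((m : ℝ) * y))‖ := by
    intro m hm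
    rw [mem_Ioc] at hm
    have hm0 : 0 < m := by omega
    have h1 : ∑ l ∈ Ioc L (2 * L), b l *
        (if N < m * l ∧ m * l ≤ N' then e (f.eval (((m * l : ℕ)) : ℝ)) else 0) =
        ∑ l ∈ (Ioc L (2 * L)).filter (fun l => N / m < l ∧ l ≤ N' / m),
          b l * e (f.eval (((m * l : ℕ)) : ℝ)) := by
      rw [sum_filter]
      refine sum_congr rfl fun l _ => ?_
      have h2 : (N / m < l ∧ l ≤ N' / m) ↔ (N < m * l ∧ m * l ≤ N') := by
        rw [Nat.div_lt_iff_lt_mul hm0, Nat.le_div_iff_mul_le hm0, mul_comm l m]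
      by_cases h3 : N < m * l ∧ m * l ≤ N'
      · rw [if_pos h3, if_pos (h2.2 h3)]
      · rw [if_neg h3, if_neg (fun h4 => h3 (h2.1 h4)), mul_zero]
    rw [h1]
    refine (block_sum (Ioc L (2 * L)) T K (N / m) (N' / m) hT0 (fun l hl => ?_)
      (fun l => b l * e (f.eval (((m * l : ℕ)) : ℝ))) (fun l => ?_)).trans (add_le_add le_rfl ?_)
    · rw [mem_Ioc] at hl
      have := Nat.div_le_div_right (c := T) hl.2
      rw [hK]
      omega
    · rw [norm_mul, norm_e, mul_one]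
      exact hb l
    · refine le_of_eq (sum_congr rfl fun k _ => ?_)
      congr 1
      rw [sum_filter]
      have h2 : Ioc L (2 * L) ⊆ Icc 1 (2 * L) := by
        intro l hl
        rw [mem_Ioc] at hl
        rw [mem_Icc]
        omega
      rw [← sum_subset h2 (f := fun y => bk k y * e (f.eval ((m : ℝ) * y)))]
      · refine sum_congr rfl fun l hl => ?_
        rw [hbk]
        by_cases h3 : l / T = k
        · rw [if_pos h3, if_pos ⟨hl, h3⟩]
          push_cast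
          rfl
        · rw [if_neg h3, if_neg (fun h4 => h3 h4.2), zero_mul]
      · intro l _ hl
        rw [hbk, if_neg (fun h4 => hl h4.1), zero_mul]
  calc _ ≤ ∑ m ∈ Ioc M (2 * M), (2 * (T : ℝ) +
        ∑ k ∈ range K, ‖∑ y ∈ Icc 1 (2 * L), bk k y * e (f.eval ((m : ℝ) * y))‖) :=
        sum_le_sum hone
    _ = M * (2 * (T : ℝ)) + ∑ k ∈ range K, ∑ m ∈ Ioc M (2 * M),
        ‖∑ y ∈ Icc 1 (2 * L), bk k y * e (f.eval ((m : ℝ) * y))‖ := by
        rw [sum_add_distrib, sum_const, Nat.card_Ioc, sum_comm, nsmul_eq_mul]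
        congr 2
        have : 2 * M - M = M := by omega
        rw [this]
    _ ≤ M * (2 * (T : ℝ)) + ∑ _k ∈ range K, ((2 * M : ℕ) * (2 * L : ℕ) * σ : ℝ) :=
        add_le_add le_rfl (sum_le_sum fun k _ => h (bk k) (hbk1 k))
    _ = M * (2 * (T : ℝ)) + K * (4 * (M * L) * σ) := by
        rw [sum_const, card_range, nsmul_eq_mul]
        push_cast
        ring
    _ ≤ M * (2 * (2 * (√σ * L))) + 12 * (M * L * √σ) := by
        refine add_le_add ?_ ?_
        · refine mul_le_mul_of_nonneg_left ?_ hM0.le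
          nlinarith
        · calc (K : ℝ) * (4 * (M * L) * σ) = (K * √σ) * (4 * (M * L) * √σ) := by
                nth_rewrite 1 [← hss]
                ring
            _ ≤ 3 * (4 * (M * L) * √σ) := mul_le_mul_of_nonneg_right hKR (by positivity)
            _ = _ := by ring
    _ = _ := by ring

end Pool.Agent.W2helper84.PB
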