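import Mathlib
import Pool.Agent.W2helper84.PB.Seg

/-!
# Polynomials of large degree at primes
-/

set_option autoImplicit false

namespace Pool.Agent.W2helper84.PB

open Finset Polynomial Filter
open Pool.Agent.V11226.ETN (e e_add e_zero norm_e e_int e_nsmul e_neg conj_e e_add_int)
open Pool.Agent.W2helper84.RB (ev_pow_le ev_const_le dz dz_nonneg)

/-- the polynomial `f (m (l + X))` -/
theorem comp_facts (f : ℝ[X]) (m l : ℕ) (hm : 1 ≤ m) :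
    (taylor (l : ℝ) (f.comp (C (m : ℝ) * X))).natDegree = f.natDegree ∧
    (taylor (l : ℝ) (f.comp (C (m : ℝ) * X))).leadingCoeff = f.leadingCoeff * (m : ℝ) ^ f.natDegree ∧
    ∀ z : ℝ, (taylor (l : ℝ) (f.comp (C (m : ℝ) * X))).eval z = f.eval (m * (l + z)) := by
  have hm0 : (m : ℝ) ≠ 0 := by
    have : (0 : ℝ) < m := by exact_mod_cast hm
    exact this.ne'
  have h1 : (C (m : ℝ) * X : ℝ[X]).natDegree = 1 := natDegree_C_mul_X _ hm0
  refine ⟨?_, ?_, fun z => ?_⟩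
  · rw [natDegree_taylor, natDegree_comp, h1, mul_one]
  · rw [leadingCoeff_taylor, leadingCoeff_comp (by rw [h1]; exact one_ne_zero)]
    congr 2
    rw [leadingCoeff_mul, leadingCoeff_C, leadingCoeff_X, mul_one]
  · rw [taylor_eval, eval_comp, eval_mul, eval_C, eval_X]
    congr 1
    ring

/-- **One segment.** -/
theorem seg (κ β β₃ : ℝ) (w : ℕ) (hκ : 0 < κ) (hβ : 0 < β) (hκβ : 4 * κ + β < 1)
    (hβ₃ : β₃ < 1) (hw : 1 ≤ w) :
    ∃ H₀ : ℕ, ∀ H : ℕ, H₀ ≤ H → ∃ U : ℕ, 1 ≤ U ∧ ((U * U : ℕ) : ℝ) ≤ (H : ℝ) ^ (1 / 2 : ℝ) ∧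
      ∀ f : ℝ[X], 1 ≤ f.natDegree →
      (f.natDegree : ℝ) ≤ (Real.log H) ^ κ → ∀ Q : ℝ, 0 ≤ Q → Q ≤ Real.exp ((Real.log H) ^ β₃) →
      (∀ n : ℕ, 1 ≤ n → 1 ≤ Q * (n : ℝ) ^ w * dz (f.leadingCoeff * n)) →
      ∀ N N' : ℕ, U * U ≤ N → 1 ≤ N → N ≤ N' → N' ≤ 2 * N → N' ≤ H →
      ‖∑ n ∈ Ioc N N', ((ArithmeticFunction.vonMangoldt n : ℝ) : ℂ) * e (f.eval (n : ℝ))‖ ≤
        H * Real.exp (-(Real.log H) ^ β) := by
  obtain ⟨β', hβ'1, hβ'2⟩ : ∃ β' : ℝ, β < β' ∧ 4 * κ + β' < 1 :=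
    ⟨(β + (1 - 4 * κ)) / 2, by linarith, by linarith⟩
  have hw1 : (1 : ℝ) ≤ w := by exact_mod_cast hw
  obtain ⟨δ, hδ⟩ : ∃ δ : ℝ, δ = 1 / (64 * w) := ⟨_, rfl⟩
  have hδ0 : 0 < δ := by rw [hδ]; positivity
  have hδw : δ * w = 1 / 64 := by rw [hδ]; field_simp
  have hδ64 : δ ≤ 1 / 64 := by nlinarith
  obtain ⟨H₁, hH₁⟩ := bil_asym κ β' β₃ (1 / 8) w hκ (by linarith) hβ'2 hβ₃ (by norm_num) (by norm_num) hw
  obtain ⟨H₂, hH₂⟩ := bil_asym κ β' β₃ δ w hκ (by linarith) hβ'2 hβ₃ hδ0 (by linarith) hw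
  have hlog : Tendsto (fun H : ℕ => Real.log (H : ℝ)) atTop atTop :=
    Real.tendsto_log_atTop.comp tendsto_natCast_atTop_atTop
  have hev : ∀ᶠ x : ℝ in atTop,
      17496 * x ^ 5 * Real.exp (-(1 / 8 * x ^ β')) ≤ Real.exp (-x ^ β) ∧
      54 * x ^ 2 * Real.exp (-(1 * x ^ β')) ≤ Real.exp (-x ^ β) ∧
      216 * x ^ 1 * Real.exp (-(1 / 2 * x ^ (1 : ℝ))) ≤ Real.exp (-x ^ β) ∧
      2 / δ * x ^ β' ≤ x ^ (1 : ℝ) ∧ 4 / δ ≤ x ^ (1 : ℝ) ∧ 3 ≤ x := by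
    filter_upwards [ev_small 17496 (1 / 8) 5 β β' hβ'1 (by linarith) (by norm_num),
      ev_small 54 1 2 β β' hβ'1 (by linarith) (by norm_num),
      ev_small 216 (1 / 2) 1 β 1 (by linarith) (by linarith) (by norm_num),
      ev_pow_le β' 1 (2 / δ) (by linarith), ev_const_le 1 (4 / δ) one_pos, eventually_ge_atTop 3]
      with x a1 a2 a3 a4 a5 a6
    exact ⟨a1, a2, a3, a4, a5, a6⟩
  obtain ⟨H₀, hH₀⟩ := eventually_atTop.1 ((hlog.eventually hev).and (eventually_ge_atTop 16))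
  refine ⟨max H₀ (max H₁ H₂), fun H hH => ?_⟩
  obtain ⟨⟨a1, a2, a3, a4, a5, a6⟩, hH16⟩ := hH₀ H ((le_max_left _ _).trans hH)
  replace hH₁ := hH₁ H (((le_max_left _ _).trans (le_max_right _ _)).trans hH)
  replace hH₂ := hH₂ H (((le_max_right _ _).trans (le_max_right _ _)).trans hH)
  obtain ⟨x, hx⟩ : ∃ x : ℝ, x = Real.log H := ⟨_, rfl⟩
  rw [← hx] at a1 a2 a3 a4 a5 a6 hH₁ hH₂ ⊢
  rw [Real.rpow_one] at a3 a4 a5
  have hx0 : 0 < x := by linarith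
  have hHR : (16 : ℝ) ≤ H := by exact_mod_cast hH16
  have hH1R : (1 : ℝ) ≤ H := by linarith
  have hH0 : (0 : ℝ) < H := by linarith
  have hHe : (H : ℝ) = Real.exp x := by rw [hx, Real.exp_log hH0]
  have hrp : ∀ a : ℝ, (H : ℝ) ^ a = Real.exp (a * x) := by
    intro a
    rw [hHe, ← Real.exp_mul]
    congr 1
    ring
  obtain ⟨U, hU⟩ : ∃ U : ℕ, U = ⌊(H : ℝ) ^ δ⌋₊ := ⟨_, rfl⟩
  have hHδ1 : (1 : ℝ) ≤ (H : ℝ) ^ δ := Real.one_le_rpow hH1R hδ0.le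
  have hU1 : 1 ≤ U := by rw [hU]; exact Nat.one_le_floor_iff _ |>.2 hHδ1
  have hU2 : (U : ℝ) ≤ (H : ℝ) ^ δ := by rw [hU]; exact Nat.floor_le (by linarith)
  have hU3 : (H : ℝ) ^ δ < U + 1 := by rw [hU]; exact Nat.lt_floor_add_one _
  have hUU : ((U * U : ℕ) : ℝ) ≤ (H : ℝ) ^ (2 * δ) := by
    push_cast
    calc (U : ℝ) * U ≤ (H : ℝ) ^ δ * (H : ℝ) ^ δ :=
          mul_le_mul hU2 hU2 (Nat.cast_nonneg _) (by linarith)
      _ = (H : ℝ) ^ (2 * δ) := by rw [← Real.rpow_add hH0]; congr 1; ring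
  have hUU4 : ((U * U : ℕ) : ℝ) ≤ (H : ℝ) ^ (1 / 4 : ℝ) :=
    hUU.trans (Real.rpow_le_rpow_of_exponent_le hH1R (by linarith))
  obtain ⟨Z, hZ⟩ : ∃ Z : ℕ, Z = ⌈(H : ℝ) ^ (1 / 8 : ℝ)⌉₊ := ⟨_, rfl⟩
  have hH81 : (1 : ℝ) ≤ (H : ℝ) ^ (1 / 8 : ℝ) := Real.one_le_rpow hH1R (by norm_num)
  have hZ1 : (H : ℝ) ^ (1 / 8 : ℝ) ≤ Z := by rw [hZ]; exact Nat.le_ceil _
  have hZ2 : (Z : ℝ) ≤ 2 * (H : ℝ) ^ (1 / 8 : ℝ) := by
    have : (Z : ℝ) ≤ (H : ℝ) ^ (1 / 8 : ℝ) + 1 := by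
      rw [hZ]; exact (Nat.ceil_lt_add_one (by positivity)).le
    linarith
  have hZ0 : 1 ≤ Z := by
    have : (1 : ℝ) ≤ Z := hH81.trans hZ1
    exact_mod_cast this
  have hZZ : (Z : ℝ) * Z ≤ 4 * (H : ℝ) ^ (1 / 4 : ℝ) := by
    calc (Z : ℝ) * Z ≤ (2 * (H : ℝ) ^ (1 / 8 : ℝ)) * (2 * (H : ℝ) ^ (1 / 8 : ℝ)) :=
          mul_le_mul hZ2 hZ2 (Nat.cast_nonneg _) (by positivity)
      _ = 4 * ((H : ℝ) ^ (1 / 8 : ℝ) * (H : ℝ) ^ (1 / 8 : ℝ)) := by ring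
      _ = 4 * (H : ℝ) ^ (1 / 4 : ℝ) := by rw [← Real.rpow_add hH0]; norm_num
  refine ⟨U, hU1, hUU.trans (Real.rpow_le_rpow_of_exponent_le hH1R (by linarith)), ?_⟩
  intro f hf1 hfκ Q hQ0 hQ hdio N N' hUN hN hNN' hN'N hN'H
  obtain ⟨σ, hσ⟩ : ∃ σ : ℝ, σ = Real.exp (-x ^ β') := ⟨_, rfl⟩
  have hσ0 : 0 < σ := by rw [hσ]; exact Real.exp_pos _
  have hσ1 : σ ≤ 1 := by
    rw [hσ]
    exact Real.exp_le_one_iff.2 (by simp only [Left.neg_nonpos_iff]; positivity)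
  have hsσ : √σ = Real.exp (-(x ^ β' / 2)) := by
    rw [hσ, ← Real.exp_half]
    congr 1
    ring
  rw [← hσ] at hH₁ hH₂
  have hN'R : (N' : ℝ) ≤ H := by exact_mod_cast hN'H
  have hNR : (1 : ℝ) ≤ N := by exact_mod_cast hN
  have hN'0 : (0 : ℝ) ≤ N' := Nat.cast_nonneg _
  -- Type I
  have hI : ∀ m ∈ Icc 1 (U * U), ∀ b, b ≤ N' / m →
      ‖∑ l ∈ Ioc (N / m) b, e (f.eval (((m * l : ℕ)) : ℝ))‖ ≤ N' * σ / m + 2 * ((Z : ℝ) * Z) := by
    intro m hm b hb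
    rw [mem_Icc] at hm
    have hm1 : (1 : ℝ) ≤ m := by exact_mod_cast hm.1
    refine typeI f m N N' Z b σ hσ0.le hm.1 hZ0 hb fun l => ?_
    obtain ⟨c1, c2, c3⟩ := comp_facts f m l hm.1
    have h1 := hH₁ (taylor (l : ℝ) (f.comp (C (m : ℝ) * X))) (by rw [c1]; exact hf1)
      (by rw [c1]; exact hfκ) m Q hm1 (by
        have h2 : (m : ℝ) ≤ (H : ℝ) ^ (2 * δ) := by
          have : (m : ℝ) ≤ ((U * U : ℕ) : ℝ) := by exact_mod_cast hm.2
          exact this.trans hUU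
        calc (m : ℝ) ^ w ≤ ((H : ℝ) ^ (2 * δ)) ^ w := pow_le_pow_left₀ (by linarith) h2 w
          _ = (H : ℝ) ^ (2 * δ * w) := by rw [← Real.rpow_natCast, ← Real.rpow_mul hH0.le]
          _ = (H : ℝ) ^ (1 / 8 / 4 : ℝ) := by
              congr 1
              linarith) hQ0 hQ (by
        intro n hn
        rw [c1, c2]
        have h2 := hdio (m ^ f.natDegree * n) (Nat.mul_pos (pow_pos hm.1 _) hn)
        push_cast at h2
        have e1 : f.leadingCoeff * (m : ℝ) ^ f.natDegree * n = f.leadingCoeff * ((m : ℝ) ^ f.natDegree * n) := by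
          ring
        rw [e1]
        exact h2) Z Z hZ1 hZ1 (by
        refine hZZ.trans ?_
        have h2 : (H : ℝ) ^ (1 / 4 : ℝ) ≤ H := by
          calc (H : ℝ) ^ (1 / 4 : ℝ) ≤ (H : ℝ) ^ (1 : ℝ) :=
                Real.rpow_le_rpow_of_exponent_le hH1R (by norm_num)
            _ = H := Real.rpow_one _
        nlinarith) (Icc 1 Z) (Subset.refl _) (fun _ => 1) (fun _ => by simp)
    refine le_trans (le_of_eq ?_) h1
    refine sum_congr rfl fun y _ => ?_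
    congr 1
    refine sum_congr rfl fun z _ => ?_
    rw [one_mul, c3]
    push_cast
    rfl
  -- Type II
  have hII : ∀ (a b : ℕ → ℂ) (A₂ B₂ : ℝ), 0 ≤ A₂ → 0 ≤ B₂ → ∀ M L : ℕ, 1 ≤ M → 1 ≤ L → U < 2 * M →
      U < 2 * L → M * L ≤ N' → ∑ m ∈ Ioc M (2 * M), ‖a m‖ ^ 2 ≤ A₂ * M →
      ∑ l ∈ Ioc L (2 * L), ‖b l‖ ^ 2 ≤ B₂ * L →
      ‖∑ m ∈ Ioc M (2 * M), ∑ l ∈ Ioc L (2 * L), a m * b l *
        (if N < m * l ∧ m * l ≤ N' then e (f.eval (((m * l : ℕ)) : ℝ)) else 0)‖ ^ 2 ≤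
        A₂ * B₂ * (3 * Real.exp (-(1 / 8 * x ^ β')) * H) ^ 2 := by
    intro a b A₂ B₂ hA₂ hB₂ M L hM hL hUM hUL hML ha hb
    have hM0 : (0 : ℝ) < M := by exact_mod_cast hM
    have hL0 : (0 : ℝ) < L := by exact_mod_cast hL
    have hMLR : (M : ℝ) * L ≤ H := by
      have : ((M * L : ℕ) : ℝ) ≤ N' := by exact_mod_cast hML
      push_cast at this
      linarith
    have hX2 : (H : ℝ) ^ δ ≤ ((2 * M : ℕ) : ℝ) := by
      have : ((U + 1 : ℕ) : ℝ) ≤ ((2 * M : ℕ) : ℝ) := by exact_mod_cast hUM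
      push_cast at this ⊢
      linarith
    have hL2 : (H : ℝ) ^ δ ≤ ((2 * L : ℕ) : ℝ) := by
      have : ((U + 1 : ℕ) : ℝ) ≤ ((2 * L : ℕ) : ℝ) := by exact_mod_cast hUL
      push_cast at this ⊢
      linarith
    have hLσ : 1 ≤ √σ * L := by
      have h1 : 2 ≤ √σ * ((2 * L : ℕ) : ℝ) := by
        calc (2 : ℝ) ≤ Real.exp 1 := by
              have := Real.exp_one_gt_d9
              linarith
          _ ≤ √σ * (H : ℝ) ^ δ := by
              rw [hsσ, hrp, ← Real.exp_add]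
              refine Real.exp_le_exp.2 ?_
              rw [div_mul_eq_mul_div, div_le_iff₀ hδ0] at a4
              rw [div_le_iff₀ hδ0] at a5
              linarith
          _ ≤ _ := mul_le_mul_of_nonneg_left hL2 (Real.sqrt_nonneg _)
      push_cast at h1
      linarith
    have h1 : ∀ b : ℕ → ℂ, (∀ l, ‖b l‖ ≤ 1) → ∑ m ∈ Ioc M (2 * M), ‖∑ l ∈ Ioc L (2 * L), b l *
        (if N < m * l ∧ m * l ≤ N' then e (f.eval (((m * l : ℕ)) : ℝ)) else 0)‖ ≤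
        M * L * (16 * √σ) := by
      refine typeII f N N' M L σ hσ0 hσ1 hM hL hLσ fun b hb => ?_
      refine hH₂ f hf1 hfκ 1 Q le_rfl ?_ hQ0 hQ ?_ (2 * M) (2 * L) hX2 hL2 ?_ (Ioc M (2 * M)) ?_ b hb
      · rw [one_pow]
        exact Real.one_le_rpow hH1R (by positivity)
      · intro n hn
        rw [one_pow, one_mul]
        exact hdio n hn
      · push_cast
        nlinarith
      · intro l hl
        rw [mem_Ioc] at hl
        rw [mem_Icc]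
        omega
    have h2 := l2_of_sup M L hM hL
      (fun m l => if N < m * l ∧ m * l ≤ N' then e (f.eval (((m * l : ℕ)) : ℝ)) else 0)
      (fun m l => by
        split_ifs
        · exact (norm_e _).le
        · rw [norm_zero]; exact zero_le_one) (16 * √σ) (by positivity) h1 a b A₂ B₂ hA₂ hB₂ ha hb
    refine h2.trans (mul_le_mul_of_nonneg_left ?_ (by positivity))
    have h3 : √(16 * √σ) = 4 * Real.exp (-(x ^ β' / 4)) := by
      rw [Real.sqrt_eq_iff_mul_self_eq (by positivity) (by positivity), hsσ]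
      have : Real.exp (-(x ^ β' / 2)) = Real.exp (-(x ^ β' / 4)) * Real.exp (-(x ^ β' / 4)) := by
        rw [← Real.exp_add]
        congr 1
        ring
      rw [this]
      ring
    have h4 : (Real.exp (-(1 / 8 * x ^ β'))) ^ 2 = Real.exp (-(x ^ β' / 4)) := by
      rw [← Real.exp_nat_mul]
      congr 1
      push_cast
      ring
    have h6 : (3 * Real.exp (-(1 / 8 * x ^ β')) * H) ^ 2 = 9 * Real.exp (-(x ^ β' / 4)) * (H : ℝ) ^ 2 := by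
      rw [mul_pow, mul_pow, h4]
      norm_num
    rw [h3, h6]
    have h5 : ((M : ℝ) * L) ^ 2 ≤ (H : ℝ) ^ 2 := pow_le_pow_left₀ (by positivity) hMLR 2
    refine mul_le_mul ?_ h5 (by positivity) (by positivity)
    have := Real.exp_pos (-(x ^ β' / 4))
    linarith
  have hv := Pool.Agent.H373R2.T7.vaughan_gen (fun n => e (f.eval (n : ℝ))) N N' U hN hNN' hN'N hU1
    hUN (fun m => N' * σ / m + 2 * ((Z : ℝ) * Z)) (3 * Real.exp (-(1 / 8 * x ^ β')) * H)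
    (by positivity) (fun m => by positivity) hI hII
  refine hv.trans ?_
  have hLg : 1 + Real.log (4 * N) ≤ 3 * x := by
    have h1 : Real.log (4 * N) ≤ Real.log 4 + x := by
      rw [Real.log_mul (by norm_num) (by linarith), hx]
      have : Real.log N ≤ Real.log H :=
        Real.log_le_log (by linarith) (by exact_mod_cast hNN'.trans hN'H)
      linarith
    have h2 : Real.log 4 ≤ 2 := by
      have h3 : Real.log 4 = 2 * Real.log 2 := by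
        have : (4 : ℝ) = 2 ^ 2 := by norm_num
        rw [this, Real.log_pow]
        push_cast
        rfl
      have := Real.log_two_lt_d9
      linarith
    linarith
  have hLg0 : 0 ≤ 1 + Real.log (4 * N) := by
    have : 0 ≤ Real.log (4 * (N : ℝ)) := Real.log_nonneg (by linarith)
    linarith
  have hY : ∑ m ∈ Icc 1 (U * U), (N' * σ / m + 2 * ((Z : ℝ) * Z)) ≤
      H * σ * (2 * x) + 8 * (H : ℝ) ^ (1 / 2 : ℝ) := by
    rw [sum_add_distrib, sum_const, Nat.card_Icc, Nat.add_sub_cancel, nsmul_eq_mul]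
    refine add_le_add ?_ ?_
    · have h1 : ∑ m ∈ Icc 1 (U * U), (N' * σ / m : ℝ) = N' * σ * ∑ m ∈ Icc 1 (U * U), (m : ℝ)⁻¹ := by
        rw [mul_sum]
        exact sum_congr rfl fun m _ => div_eq_mul_inv _ _
      have h2 : ∑ m ∈ Icc 1 (U * U), (m : ℝ)⁻¹ ≤ 1 + Real.log (U * U : ℕ) := by
        have h3 := harmonic_le_one_add_log (U * U)
        rw [harmonic_eq_sum_Icc] at h3
        push_cast at h3 ⊢
        exact h3
      have h3 : Real.log (U * U : ℕ) ≤ x := by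
        rw [hx]
        refine Real.log_le_log (by exact_mod_cast Nat.mul_pos hU1 hU1) (hUU4.trans ?_)
        calc (H : ℝ) ^ (1 / 4 : ℝ) ≤ (H : ℝ) ^ (1 : ℝ) :=
              Real.rpow_le_rpow_of_exponent_le hH1R (by norm_num)
          _ = H := Real.rpow_one _
      rw [h1]
      refine mul_le_mul (mul_le_mul_of_nonneg_right hN'R hσ0.le) (by linarith) ?_ (by positivity)
      exact sum_nonneg fun _ _ => by positivity
    · calc ((U * U : ℕ) : ℝ) * (2 * ((Z : ℝ) * Z)) ≤ (H : ℝ) ^ (1 / 4 : ℝ) * (2 * (4 * (H : ℝ) ^ (1 / 4 : ℝ))) :=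
            mul_le_mul hUU4 (by linarith) (by positivity) (by positivity)
        _ = 8 * ((H : ℝ) ^ (1 / 4 : ℝ) * (H : ℝ) ^ (1 / 4 : ℝ)) := by ring
        _ = 8 * (H : ℝ) ^ (1 / 2 : ℝ) := by rw [← Real.rpow_add hH0]; norm_num
  have hY0 : 0 ≤ ∑ m ∈ Icc 1 (U * U), (N' * σ / m + 2 * ((Z : ℝ) * Z)) :=
    sum_nonneg fun _ _ => by positivity
  have hH2 : (H : ℝ) ^ (1 / 2 : ℝ) = H * Real.exp (-(1 / 2 * x)) := by
    rw [hrp, hHe, ← Real.exp_add]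
    congr 1
    ring
  calc 8 * (1 + Real.log (4 * N)) ^ 5 * (3 * Real.exp (-(1 / 8 * x ^ β')) * H) +
        3 * (1 + Real.log (4 * N)) * ∑ m ∈ Icc 1 (U * U), (N' * σ / m + 2 * ((Z : ℝ) * Z)) ≤
      8 * (3 * x) ^ 5 * (3 * Real.exp (-(1 / 8 * x ^ β')) * H) +
        3 * (3 * x) * (H * σ * (2 * x) + 8 * (H : ℝ) ^ (1 / 2 : ℝ)) := by
        refine add_le_add ?_ ?_
        · refine mul_le_mul_of_nonneg_right ?_ (by positivity)
          exact mul_le_mul_of_nonneg_left (pow_le_pow_left₀ hLg0 hLg 5) (by norm_num)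
        · exact mul_le_mul (by linarith) hY hY0 (by positivity)
    _ = H * ((17496 * x ^ 5 * Real.exp (-(1 / 8 * x ^ β')) + 54 * x ^ 2 * Real.exp (-(1 * x ^ β')) +
        216 * x ^ 1 * Real.exp (-(1 / 2 * x))) / 3) := by
        rw [hH2, hσ, one_mul]
        ring
    _ ≤ H * Real.exp (-x ^ β) := by
        refine mul_le_mul_of_nonneg_left ?_ hH0.le
        linarith

end Pool.Agent.W2helper84.PB
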