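import Mathlib
import Pool.Agent.W2helper84.PB.Lam
import Pool.Agent.W2helper84.RB.Main
import Pool.Agent.H425R3.JL.P1

/-!
# Total variation distance from exponential sums, for a general set of bases
-/

set_option autoImplicit false

namespace Pool.Agent.W2helper84.PB

open Finset Polynomial Filter
open Pool.Agent.V11226.ETN (e e_add e_zero norm_e e_int e_nsmul e_neg conj_e e_add_int)
open Pool.Agent.W2helper84.RB

/-- **Total variation distance** for a general set of bases. -/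
theorem tv_general (R : ℕ) (κ β β₁ β₂ : ℝ) (hκ : 0 < κ) (hβ0 : 0 < β) (hβ₁ : β < β₁)
    (hβ₂1 : κ + β₁ < β₂) (hβ₂2 : β₂ ≤ 1) :
    ∃ t₀ : ℝ, ∀ t : ℝ, t₀ ≤ t → ∀ B : Finset ℕ, Real.exp (t / 2) ≤ (B.card : ℝ) →
      ∀ k q : ℕ, 1 ≤ q → (k : ℝ) ≤ t ^ κ → (q : ℝ) ≤ Real.exp (t ^ β) → ∀ x : Fin R → ℝ,
      (∀ u : Fin R × Fin k → ℤ, u ≠ 0 → (∀ p, |(u p : ℝ)| ≤ Real.exp (t ^ β₁)) →
        ‖∑ b ∈ B, e (∑ i, (u i : ℝ) * (x i.1 * (b : ℝ) ^ ((i.2 : ℕ) + 1)))‖ ≤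
          Real.exp (-t ^ β₂) * B.card) →
      ∀ E : Finset (Fin R × Fin k → ℤ),
      (∀ w ∈ E, ∀ p, 0 ≤ w p ∧ w p < q) →
      |((B.filter fun b => (fun p : Fin R × Fin k => cls q b (x p.1) ((p.2 : ℕ) + 2)) ∈ E).card : ℝ) -
        B.card * (E.card / (q : ℝ) ^ (R * k))| ≤ B.card * Real.exp (-t ^ β) := by
  obtain ⟨β', hβ'1, hβ₁1⟩ : ∃ β' : ℝ, β < β' ∧ β' < β₁ :=
    ⟨(β + β₁) / 2, by linarith, by linarith⟩
  have hev : ∀ᶠ t : ℝ in atTop,
      Real.log (39 * R + 1) + κ * Real.log t + t ^ β ≤ t ^ β' ∧ 2 * t ^ β ≤ t ^ β' ∧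
      4 * R * t ^ (κ + β₁) ≤ t ^ β₂ ∧ 4 * t ^ β ≤ t ^ β₂ ∧ 4 * 3 ≤ t ^ β₂ ∧
      8 * 3 ≤ t ^ (1 : ℝ) ∧ 8 * 2 * t ^ β ≤ t ^ (1 : ℝ) ∧ 8 * t ^ β' ≤ t ^ (1 : ℝ) ∧
      4 * 8 ≤ t ^ β₁ ∧ 4 * 3 * t ^ β ≤ t ^ β₁ ∧ 4 * 6 * t ^ β' ≤ t ^ β₁ ∧ 2 ≤ t ^ β' ∧ 1 ≤ t := by
    filter_upwards [ev_log κ β β' (Real.log (39 * R + 1)) hκ hβ0 hβ'1, ev_pow_le β β' 2 hβ'1,
      ev_pow_le (κ + β₁) β₂ (4 * R) hβ₂1, ev_pow_le β β₂ 4 (by linarith),
      ev_const_le β₂ (4 * 3) (by linarith), ev_const_le 1 (8 * 3) one_pos,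
      ev_pow_le β 1 (8 * 2) (by linarith), ev_pow_le β' 1 8 (by linarith),
      ev_const_le β₁ (4 * 8) (by linarith), ev_pow_le β β₁ (4 * 3) (by linarith),
      ev_pow_le β' β₁ (4 * 6) hβ₁1, ev_const_le β' 2 (by linarith), eventually_ge_atTop 1]
      with t a1 a2 a3 a4 a5 a6 a7 a8 a9 a10 a11 a12 a13
    exact ⟨a1, a2, a3, a4, a5, a6, a7, a8, a9, a10, a11, a12, a13⟩
  obtain ⟨t₀, ht₀⟩ := eventually_atTop.1 hev
  refine ⟨t₀, fun t htt B hBexp k q hq hk hqβ x hSum E hE => ?_⟩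
  obtain ⟨a1, a2, a3, a4, a5, a6, a7, a8, a9, a10, a11, a12, a13⟩ := ht₀ t htt
  rw [Real.rpow_one] at a6 a7 a8
  have ht0 : 0 < t := by linarith
  obtain ⟨H, hHB⟩ : ∃ H : ℕ, H = B.card := ⟨_, rfl⟩
  rw [← hHB] at hBexp hSum ⊢
  have hH0 : (0 : ℝ) < H := lt_of_lt_of_le (Real.exp_pos _) hBexp
  -- parameters
  obtain ⟨M, hM⟩ : ∃ M : ℕ, M = ⌈Real.exp (t ^ β')⌉₊ := ⟨_, rfl⟩
  have hM1 : Real.exp (t ^ β') ≤ M := by rw [hM]; exact Nat.le_ceil _
  have hM2 : (M : ℝ) ≤ Real.exp (t ^ β' + 1) := by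
    have h1 := (Nat.ceil_lt_add_one (Real.exp_nonneg (t ^ β'))).le
    rw [← hM] at h1
    have h2 : (1 : ℝ) ≤ Real.exp (t ^ β') := Real.one_le_exp (by positivity)
    have h3 := Real.add_one_le_exp (1 : ℝ)
    rw [Real.exp_add]
    calc (M : ℝ) ≤ Real.exp (t ^ β') * 2 := by linarith
      _ ≤ Real.exp (t ^ β') * Real.exp 1 :=
          mul_le_mul_of_nonneg_left (by linarith) (Real.exp_nonneg _)
  have hM3 : 3 ≤ M := by
    have h1 := Real.add_one_le_exp (t ^ β')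
    have h2 : (3 : ℝ) ≤ M := by linarith
    exact_mod_cast h2
  have hM3' : (3 : ℝ) ≤ M := by exact_mod_cast hM3
  have hq1 : (1 : ℝ) ≤ q := by exact_mod_cast hq
  have hone : (1 : ℝ) ≤ (((q * M : ℕ) : ℝ) * M) ^ 3 := by
    apply one_le_pow₀
    have h1 : 1 ≤ q * M * M := Nat.mul_pos (Nat.mul_pos hq (by omega)) (by omega)
    exact_mod_cast h1
  have hg1 : 2 * (((q * M : ℕ) : ℝ) * M) ^ 3 + 1 ≤ Real.exp (t ^ β₁) := by
    have h1 := hone
    have h2 : (((q * M : ℕ) : ℝ) * M) ≤ Real.exp (t ^ β + 2 * (t ^ β' + 1)) := by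
      push_cast
      calc (q : ℝ) * M * M ≤ Real.exp (t ^ β) * Real.exp (t ^ β' + 1) * Real.exp (t ^ β' + 1) :=
            mul_le_mul (mul_le_mul hqβ hM2 (by positivity) (by positivity)) hM2 (by positivity)
              (by positivity)
        _ = _ := by
            rw [← Real.exp_add, ← Real.exp_add]
            congr 1
            ring
    have h3 : (3 : ℝ) ≤ Real.exp 2 := by
      have := Real.add_one_le_exp (2 : ℝ)
      linarith
    calc 2 * (((q * M : ℕ) : ℝ) * M) ^ 3 + 1 ≤ 3 * (((q * M : ℕ) : ℝ) * M) ^ 3 := by linarith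
      _ ≤ Real.exp 2 * Real.exp (t ^ β + 2 * (t ^ β' + 1)) ^ 3 :=
          mul_le_mul h3 (pow_le_pow_left₀ (by positivity) h2 3) (by positivity) (by positivity)
      _ = Real.exp (2 + 3 * (t ^ β + 2 * (t ^ β' + 1))) := by
          rw [← Real.exp_nat_mul, ← Real.exp_add]
          push_cast
          rfl
      _ ≤ Real.exp (t ^ β₁) := Real.exp_le_exp.2 (by linarith)
  have hg0 : (0 : ℝ) ≤ (((q * M : ℕ) : ℝ) * M) ^ 3 := by positivity
  have hBc : B.card = H := hHB.symm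
  have hBne : B.Nonempty := by
    rw [← card_pos, hBc]
    exact_mod_cast hH0
  obtain ⟨ε, hε⟩ : ∃ ε : ℝ, ε = Real.exp (-t ^ β₂) := ⟨_, rfl⟩
  have hε0 : 0 < ε := by rw [hε]; exact Real.exp_pos _
  obtain ⟨n, hn⟩ : ∃ n : ℕ, n = R * k := ⟨_, rfl⟩
  have hcard : Fintype.card (Fin R × Fin k) = n := by
    rw [Fintype.card_prod, Fintype.card_fin, Fintype.card_fin, hn]
  have hnR : (n : ℝ) ≤ R * t ^ κ := by
    rw [hn]
    push_cast
    exact mul_le_mul_of_nonneg_left hk (Nat.cast_nonneg _)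
  -- exponential sums
  have hS : ∀ u : Fin R × Fin k → ℤ, u ≠ 0 → (∀ i, |u i| ≤ (((q * M) * M) ^ 3 : ℕ)) →
      ‖∑ b ∈ B, e (∑ i, (u i : ℝ) * (x i.1 * (b : ℝ) ^ ((i.2 : ℕ) + 1)))‖ ≤ ε * B.card := by
    intro u hu huN
    rw [hε, hBc]
    refine hSum u hu fun p => ?_
    have h1 := huN p
    have h2 : |(u p : ℝ)| ≤ ((((q * M) * M) ^ 3 : ℕ) : ℝ) := by exact_mod_cast h1
    refine h2.trans ?_
    push_cast at hg1 ⊢
    have h3 : (0 : ℝ) ≤ ((q : ℝ) * M * M) ^ 3 := by positivity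
    linarith
  have hqM1 : 1 ≤ q * M := Nat.mul_pos hq (show 0 < M by omega)
  have hqM2 : 2 ≤ q * M := le_trans (show 2 ≤ M by omega) (Nat.le_mul_of_pos_left M hq)
  have hcell := cell_le B (fun (b : ℕ) (i : Fin R × Fin k) => x i.1 * (b : ℝ) ^ ((i.2 : ℕ) + 1))
    (q * M) M hqM1 hM3 hqM2 ε hε0.le hS
  obtain ⟨ρ, hρ⟩ : ∃ ρ : ℝ, ρ = ((1 + 3 / M) / ((q * M : ℕ) : ℝ)) ^ n *
    (1 + (2 * (((q * M : ℕ) : ℝ) * M) ^ 3 + 1) ^ n * ε) := ⟨_, rfl⟩
  have hcell' : ∀ cc : Fin R × Fin k → ℕ, ((B.filter fun b : ℕ => cell (q * M)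
      (fun p : Fin R × Fin k => x p.1 * (b : ℝ) ^ ((p.2 : ℕ) + 1)) = cc).card : ℝ) ≤ B.card * ρ := by
    intro cc
    have h1 := hcell cc
    rw [hcard, ← hρ] at h1
    refine le_trans ?_ h1
    have h2 : (B.filter fun b : ℕ => cell (q * M)
        (fun p : Fin R × Fin k => x p.1 * (b : ℝ) ^ ((p.2 : ℕ) + 1)) = cc) ⊆
        (B.filter fun b => ∀ i, (cc i : ℝ) ≤ ((q * M : ℕ) : ℝ) *
          Int.fract (x i.1 * (b : ℝ) ^ ((i.2 : ℕ) + 1)) ∧ ((q * M : ℕ) : ℝ) *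
          Int.fract (x i.1 * (b : ℝ) ^ ((i.2 : ℕ) + 1)) < cc i + 1) := by
      intro b hb
      rw [mem_filter] at hb ⊢
      refine ⟨hb.1, fun i => ?_⟩
      rw [← hb.2]
      unfold cell
      exact ⟨Nat.floor_le (mul_nonneg (Nat.cast_nonneg _) (Int.fract_nonneg _)),
        Nat.lt_floor_add_one _⟩
    exact_mod_cast card_le_card h2
  have htv := tv_digits B hBne (fun p : Fin R × Fin k => x p.1) (fun p => (p.2 : ℕ) + 1) q M hq
    (by omega) ρ hcell' E hE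
  rw [hcard, hBc] at htv
  rw [← hn]
  refine htv.trans ?_
  -- numerical estimate
  have hQM : (0 : ℝ) < ((q * M : ℕ) : ℝ) := by
    have : 0 < q * M := Nat.mul_pos hq (by omega)
    exact_mod_cast this
  have e1 : ((q * M : ℕ) : ℝ) ^ n * ρ = (1 + 3 / (M : ℝ)) ^ n *
      (1 + (2 * (((q * M : ℕ) : ℝ) * M) ^ 3 + 1) ^ n * ε) := by
    rw [hρ, ← mul_assoc, ← mul_pow]
    congr 2
    field_simp
  rw [e1]
  have hn0 : (0 : ℝ) ≤ n := Nat.cast_nonneg n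
  have hRk : (0 : ℝ) ≤ R * t ^ κ := by positivity
  obtain ⟨y, hy⟩ : ∃ y : ℝ, y = (n : ℝ) / M := ⟨_, rfl⟩
  have hy0 : 0 ≤ y := by rw [hy]; positivity
  have hyb : 39 * y ≤ Real.exp (-t ^ β) := by
    have h1 : 39 * (n : ℝ) ≤ Real.exp (Real.log (39 * R + 1) + κ * Real.log t) := by
      rw [Real.exp_add, Real.exp_log (by positivity), mul_comm κ, ← Real.rpow_def_of_pos ht0]
      have h3 : 0 ≤ t ^ κ := by positivity
      nlinarith
    have h2 : Real.exp (Real.log (39 * R + 1) + κ * Real.log t) ≤ Real.exp (-t ^ β) * M := by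
      calc Real.exp (Real.log (39 * R + 1) + κ * Real.log t) ≤ Real.exp (-t ^ β + t ^ β') :=
            Real.exp_le_exp.2 (by linarith)
        _ = Real.exp (-t ^ β) * Real.exp (t ^ β') := Real.exp_add _ _
        _ ≤ _ := mul_le_mul_of_nonneg_left hM1 (Real.exp_nonneg _)
    rw [hy, ← mul_div_assoc, div_le_iff₀ (by linarith)]
    linarith
  have he1 : Real.exp (-t ^ β) ≤ 1 := by
    rw [Real.exp_le_one_iff]
    have : 0 ≤ t ^ β := by positivity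
    linarith
  obtain ⟨z, hz⟩ : ∃ z : ℝ, z = (2 * (((q * M : ℕ) : ℝ) * M) ^ 3 + 1) ^ n * ε := ⟨_, rfl⟩
  have hz0 : 0 ≤ z := by rw [hz]; positivity
  have hzb : 12 * z ≤ Real.exp (-t ^ β) := by
    have h1 : (2 * (((q * M : ℕ) : ℝ) * M) ^ 3 + 1) ^ n ≤ Real.exp (R * t ^ (κ + β₁)) := by
      calc (2 * (((q * M : ℕ) : ℝ) * M) ^ 3 + 1) ^ n ≤ (Real.exp (t ^ β₁)) ^ n :=
            pow_le_pow_left₀ (by positivity) hg1 n
        _ = Real.exp (n * t ^ β₁) := by rw [← Real.exp_nat_mul]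
        _ ≤ Real.exp (R * t ^ (κ + β₁)) := by
            refine Real.exp_le_exp.2 ?_
            rw [Real.rpow_add ht0, ← mul_assoc]
            exact mul_le_mul_of_nonneg_right hnR (by positivity)
    have h2 : (12 : ℝ) ≤ Real.exp 3 := by
      have h3 := Real.add_one_le_exp (3 / 2 : ℝ)
      have h4 := Real.exp_one_gt_d9
      have h5 : Real.exp 3 = Real.exp 1 ^ 3 := by
        rw [← Real.exp_nat_mul]
        norm_num
      rw [h5]
      have h6 : (2.7 : ℝ) ^ 3 ≤ Real.exp 1 ^ 3 := pow_le_pow_left₀ (by norm_num) (by linarith) 3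
      norm_num at h6
      linarith
    calc 12 * z ≤ Real.exp 3 * (Real.exp (R * t ^ (κ + β₁)) * ε) := by
          rw [hz]
          exact mul_le_mul h2 (mul_le_mul_of_nonneg_right h1 hε0.le) (by positivity) (by positivity)
      _ = Real.exp (3 + R * t ^ (κ + β₁) + -t ^ β₂) := by
          rw [hε, Real.exp_add, Real.exp_add]
          ring
      _ ≤ _ := Real.exp_le_exp.2 (by linarith)
  have hqM : 3 * ((q : ℝ) * M) ≤ H * Real.exp (-t ^ β) := by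
    have h3 : (3 : ℝ) ≤ Real.exp 2 := by
      have := Real.add_one_le_exp (2 : ℝ)
      linarith
    calc 3 * ((q : ℝ) * M) ≤ Real.exp 2 * (Real.exp (t ^ β) * Real.exp (t ^ β' + 1)) :=
          mul_le_mul h3 (mul_le_mul hqβ hM2 (by positivity) (by positivity)) (by positivity)
            (by positivity)
      _ = Real.exp (2 + (t ^ β + (t ^ β' + 1))) := by rw [Real.exp_add 2, Real.exp_add (t ^ β)]
      _ ≤ Real.exp (t / 2 + -t ^ β) := Real.exp_le_exp.2 (by linarith)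
      _ = Real.exp (t / 2) * Real.exp (-t ^ β) := by rw [Real.exp_add]
      _ ≤ H * Real.exp (-t ^ β) := mul_le_mul_of_nonneg_right hBexp (Real.exp_nonneg _)
  have hpow : (1 + 3 / (M : ℝ)) ^ n ≤ 1 + 6 * y := by
    have h1 : (1 + 3 / (M : ℝ)) ^ n ≤ Real.exp (3 * y) := by
      have h2 : 1 + 3 / (M : ℝ) ≤ Real.exp (3 / M) := by
        have := Real.add_one_le_exp (3 / (M : ℝ))
        linarith
      calc (1 + 3 / (M : ℝ)) ^ n ≤ (Real.exp (3 / M)) ^ n := pow_le_pow_left₀ (by positivity) h2 n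
        _ = Real.exp (3 * y) := by
            rw [← Real.exp_nat_mul, hy]
            congr 1
            ring
    have h2 := exp_le_lin (y := 3 * y) (by linarith) (by linarith)
    linarith
  rw [← hy, ← hz]
  have hfin : y + 2 * ((1 + 3 / (M : ℝ)) ^ n * (1 + z) - 1) ≤ 2 / 3 * Real.exp (-t ^ β) := by
    have h1 : (1 + 3 / (M : ℝ)) ^ n * (1 + z) ≤ (1 + 6 * y) * (1 + z) :=
      mul_le_mul_of_nonneg_right hpow (by linarith)
    have h2 : 6 * y * z ≤ 1 * z := mul_le_mul_of_nonneg_right (by linarith) hz0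
    have h3 : (1 + 6 * y) * (1 + z) = 1 + 6 * y + z + 6 * y * z := by ring
    rw [h3] at h1
    linarith
  have h1 := mul_le_mul_of_nonneg_left hfin hH0.le
  have h2 : (q : ℝ) * M ≤ 1 / 3 * (H * Real.exp (-t ^ β)) := by linarith
  calc H * (y + 2 * ((1 + 3 / (M : ℝ)) ^ n * (1 + z) - 1)) + q * M ≤
      H * (2 / 3 * Real.exp (-t ^ β)) + 1 / 3 * (H * Real.exp (-t ^ β)) := add_le_add h1 h2
    _ = H * Real.exp (-t ^ β) := by ring

end Pool.Agent.W2helper84.PB
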