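import Mathlib
import Pool.Agent.W2helper84.PB.TVG

/-!
# The digits in random prime bases
-/

set_option autoImplicit false

namespace Pool.Agent.W2helper84.PB

open Finset Polynomial Filter
open Pool.Agent.V11226.ETN (e e_add e_zero norm_e e_int e_nsmul e_neg conj_e e_add_int)
open Pool.Agent.W2helper84.RB
open Pool.Agent.H425R3.JL (PR to_primes pi_low)

/-- dyadic decomposition -/
theorem dyadic (g : ℕ → ℂ) (hg : ∀ n, ‖g n‖ ≤ 1) (H V : ℕ) (hV : 1 ≤ V) (D : ℝ) (hD : 0 ≤ D)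
    (hseg : ∀ N N' : ℕ, V ≤ N → 1 ≤ N → N ≤ N' → N' ≤ 2 * N → N' ≤ H →
      ‖∑ n ∈ Ioc N N', ((ArithmeticFunction.vonMangoldt n : ℝ) : ℂ) * g n‖ ≤ D) :
    ∀ k t : ℕ, Nat.clog 2 t ≤ k → t ≤ H →
      ‖∑ n ∈ Icc 1 t, ((ArithmeticFunction.vonMangoldt n : ℝ) : ℂ) * g n‖ ≤
        2 * V * Real.log H + k * D := by
  have hlogH : 0 ≤ Real.log (H : ℝ) := Real.log_natCast_nonneg H
  have hsmall : ∀ k t : ℕ, t ≤ 2 * V → t ≤ H →
      ‖∑ n ∈ Icc 1 t, ((ArithmeticFunction.vonMangoldt n : ℝ) : ℂ) * g n‖ ≤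
        2 * V * Real.log H + k * D := by
    intro k t htV htH
    have h1 : ‖∑ n ∈ Icc 1 t, ((ArithmeticFunction.vonMangoldt n : ℝ) : ℂ) * g n‖ ≤
        ∑ _n ∈ Icc 1 t, Real.log H := by
      refine (norm_sum_le _ _).trans (sum_le_sum fun n hn => ?_)
      rw [mem_Icc] at hn
      rw [norm_mul, Complex.norm_real, Real.norm_of_nonneg ArithmeticFunction.vonMangoldt_nonneg]
      have h2 : ArithmeticFunction.vonMangoldt n ≤ Real.log n := ArithmeticFunction.vonMangoldt_le_log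
      have h3 : Real.log n ≤ Real.log H :=
        Real.log_le_log (by exact_mod_cast hn.1) (by exact_mod_cast hn.2.trans htH)
      calc ArithmeticFunction.vonMangoldt n * ‖g n‖ ≤ Real.log H * 1 :=
            mul_le_mul (h2.trans h3) (hg n) (norm_nonneg _) hlogH
        _ = Real.log H := mul_one _
    rw [sum_const, Nat.card_Icc, Nat.add_sub_cancel, nsmul_eq_mul] at h1
    have h2 : (t : ℝ) ≤ 2 * V := by exact_mod_cast htV
    have h3 : (t : ℝ) * Real.log H ≤ 2 * V * Real.log H := mul_le_mul_of_nonneg_right h2 hlogH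
    have h4 : 0 ≤ (k : ℝ) * D := by positivity
    linarith
  intro k
  induction k with
  | zero =>
    intro t ht htH
    refine hsmall 0 t ?_ htH
    have h1 : t ≤ 1 := by
      by_contra hcon
      have := Nat.clog_pos (b := 2) (n := t) (by norm_num) (by omega)
      omega
    omega
  | succ k ih =>
    intro t ht htH
    rcases le_or_gt t (2 * V) with h1 | h1
    · exact hsmall (k + 1) t h1 htH
    · have ht2 : 2 ≤ t := by omega
      obtain ⟨N, hN⟩ : ∃ N : ℕ, N = (t + 2 - 1) / 2 := ⟨_, rfl⟩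
      have hclog := Nat.clog_of_two_le (b := 2) (n := t) (by norm_num) ht2
      rw [← hN] at hclog
      have hNt : N ≤ t := by omega
      have h2 := ih N (by omega) (hNt.trans htH)
      have h3 := hseg N t (by omega) (by omega) hNt (by omega) htH
      have h4 : ∑ n ∈ Icc 1 t, ((ArithmeticFunction.vonMangoldt n : ℝ) : ℂ) * g n =
          ∑ n ∈ Icc 1 N, ((ArithmeticFunction.vonMangoldt n : ℝ) : ℂ) * g n +
          ∑ n ∈ Ioc N t, ((ArithmeticFunction.vonMangoldt n : ℝ) : ℂ) * g n := by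
        rw [← sum_union]
        · refine sum_congr ?_ fun _ _ => rfl
          ext n
          rw [mem_union, mem_Icc, mem_Icc, mem_Ioc]
          omega
        · rw [disjoint_left]
          intro n hn hn2
          rw [mem_Icc] at hn
          rw [mem_Ioc] at hn2
          omega
      rw [h4]
      refine (norm_add_le _ _).trans ?_
      push_cast
      linarith

/-- **Polynomials of large degree at primes.** -/
theorem primes_asym (κ β β₃ : ℝ) (w : ℕ) (hκ : 0 < κ) (hβ : 0 < β) (hκβ : 4 * κ + β < 1)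
    (hβ₃ : β₃ < 1) (hw : 1 ≤ w) :
    ∃ H₀ : ℕ, ∀ H : ℕ, H₀ ≤ H → Real.exp (Real.log H / 2) ≤ ((PR H).card : ℝ) ∧
      ∀ f : ℝ[X], 1 ≤ f.natDegree →
      (f.natDegree : ℝ) ≤ (Real.log H) ^ κ → ∀ Q : ℝ, 0 ≤ Q → Q ≤ Real.exp ((Real.log H) ^ β₃) →
      (∀ n : ℕ, 1 ≤ n → 1 ≤ Q * (n : ℝ) ^ w * dz (f.leadingCoeff * n)) →
      ‖∑ p ∈ PR H, e (f.eval (p : ℝ))‖ ≤ Real.exp (-(Real.log H) ^ β) * (PR H).card := by
  obtain ⟨β', hβ'1, hβ'2⟩ : ∃ β' : ℝ, β < β' ∧ 4 * κ + β' < 1 :=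
    ⟨(β + (1 - 4 * κ)) / 2, by linarith, by linarith⟩
  obtain ⟨H₁, hH₁⟩ := seg κ β' β₃ w hκ (by linarith) hβ'2 hβ₃ hw
  obtain ⟨H₂, hH₂⟩ := pi_low
  have hlog : Tendsto (fun H : ℕ => Real.log (H : ℝ)) atTop atTop :=
    Real.tendsto_log_atTop.comp tendsto_natCast_atTop_atTop
  have hev : ∀ᶠ x : ℝ in atTop,
      (3 * 18) * x ^ 1 * Real.exp (-(1 / 2 * x ^ (1 : ℝ))) ≤ Real.exp (-x ^ β) ∧
      (3 * 16) * x ^ 1 * Real.exp (-(1 / 2 * x ^ (1 : ℝ))) ≤ Real.exp (-x ^ β) ∧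
      (3 * 24) * x ^ 1 * Real.exp (-(1 * x ^ β')) ≤ Real.exp (-x ^ β) ∧
      2 * x ^ 1 * Real.exp (-(1 / 2 * x ^ (1 : ℝ))) ≤ Real.exp (-x ^ (0 : ℝ)) ∧ 3 ≤ x := by
    filter_upwards [ev_small (3 * 18) (1 / 2) 1 β 1 (by linarith) (by linarith) (by norm_num),
      ev_small (3 * 16) (1 / 2) 1 β 1 (by linarith) (by linarith) (by norm_num),
      ev_small (3 * 24) 1 1 β β' hβ'1 (by linarith) (by norm_num),
      ev_small 2 (1 / 2) 1 0 1 (by linarith) (by linarith) (by norm_num), eventually_ge_atTop 3]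
      with x a1 a2 a3 a4 a5
    exact ⟨a1, a2, a3, a4, a5⟩
  obtain ⟨H₀, hH₀⟩ := eventually_atTop.1 ((hlog.eventually hev).and (eventually_ge_atTop 16))
  refine ⟨max H₀ (max H₁ H₂), fun H hH => ?_⟩
  obtain ⟨⟨a1, a2, a3, a4, a5⟩, hH16⟩ := hH₀ H ((le_max_left _ _).trans hH)
  obtain ⟨U, hU1, hUU, hseg⟩ := hH₁ H (((le_max_left _ _).trans (le_max_right _ _)).trans hH)
  have hpi := hH₂ H (((le_max_right _ _).trans (le_max_right _ _)).trans hH)
  obtain ⟨x, hx⟩ : ∃ x : ℝ, x = Real.log H := ⟨_, rfl⟩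
  rw [← hx] at a1 a2 a3 a4 a5 hseg hpi ⊢
  rw [Real.rpow_one] at a1 a2 a4
  have hx0 : 0 < x := by linarith
  have hHR : (16 : ℝ) ≤ H := by exact_mod_cast hH16
  have hH0 : (0 : ℝ) < H := by linarith
  have hHe : (H : ℝ) = Real.exp x := by rw [hx, Real.exp_log hH0]
  have hHhalf : (H : ℝ) ^ (1 / 2 : ℝ) = H * Real.exp (-(1 / 2 * x)) := by
    rw [hHe, ← Real.exp_mul, ← Real.exp_add]
    congr 1
    ring
  have hpi0 : 0 < (H : ℝ) / (2 * x) := by positivity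
  refine ⟨?_, fun f hf1 hfκ Q hQ0 hQ hdio => ?_⟩
  · refine le_trans ?_ hpi
    have h1 : Real.exp (x / 2) = H * Real.exp (-(1 / 2 * x)) := by
      rw [hHe, ← Real.exp_add]
      congr 1
      ring
    rw [h1, le_div_iff₀ (by positivity)]
    have h2 : 2 * x ^ 1 * Real.exp (-(1 / 2 * x)) ≤ 1 := by
      refine a4.trans ?_
      rw [Real.rpow_zero, Real.exp_le_one_iff]
      norm_num
    calc H * Real.exp (-(1 / 2 * x)) * (2 * x) = H * (2 * x ^ 1 * Real.exp (-(1 / 2 * x))) := by ring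
      _ ≤ H * 1 := mul_le_mul_of_nonneg_left h2 hH0.le
      _ = H := mul_one _
  · have hclog : ∀ t : ℕ, t ≤ H → Nat.clog 2 t ≤ ⌈2 * x⌉₊ := by
      intro t ht
      apply Nat.clog_le_of_le_pow
      have h1 : (t : ℝ) ≤ (2 : ℝ) ^ ⌈2 * x⌉₊ := by
        calc (t : ℝ) ≤ H := by exact_mod_cast ht
          _ = Real.exp x := hHe
          _ ≤ Real.exp (⌈2 * x⌉₊ * Real.log 2) := by
              refine Real.exp_le_exp.2 ?_
              have h2 : 2 * x ≤ ⌈2 * x⌉₊ := Nat.le_ceil _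
              have h3 := Real.log_two_gt_d9
              nlinarith
          _ = (2 : ℝ) ^ ⌈2 * x⌉₊ := by
              rw [Real.exp_nat_mul, Real.exp_log (by norm_num)]
      exact_mod_cast h1
    have hceil : (⌈2 * x⌉₊ : ℝ) ≤ 3 * x := by
      have := (Nat.ceil_lt_add_one (show 0 ≤ 2 * x by positivity)).le
      linarith
    have hall : ∀ t : ℕ, Nat.sqrt H ≤ t → t ≤ H →
        ‖∑ n ∈ Icc 1 t, ((ArithmeticFunction.vonMangoldt n : ℝ) : ℂ) * e (f.eval (n : ℝ))‖ ≤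
          H * (2 * x * Real.exp (-(1 / 2 * x)) + 3 * x * Real.exp (-x ^ β')) := by
      intro t _ htH
      have h1 := dyadic (fun n => e (f.eval (n : ℝ))) (fun n => (norm_e _).le) H (U * U)
        (Nat.mul_pos hU1 hU1) (H * Real.exp (-x ^ β')) (by positivity)
        (fun N N' h1 h2 h3 h4 h5 => hseg f hf1 hfκ Q hQ0 hQ hdio N N' h1 h2 h3 h4 h5)
        ⌈2 * x⌉₊ t (hclog t htH) htH
      refine h1.trans ?_
      rw [← hx]
      have h2 : 2 * ((U * U : ℕ) : ℝ) * x ≤ 2 * (H * Real.exp (-(1 / 2 * x))) * x := by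
        rw [← hHhalf]
        exact mul_le_mul_of_nonneg_right (by linarith) hx0.le
      have h3 : (⌈2 * x⌉₊ : ℝ) * (H * Real.exp (-x ^ β')) ≤ 3 * x * (H * Real.exp (-x ^ β')) :=
        mul_le_mul_of_nonneg_right hceil (by positivity)
      linarith
    have hp := to_primes (fun n => (norm_e _).le) (show 9 ≤ H by omega) hall
    rw [← hx] at hp
    have hsq : √(H : ℝ) = H * Real.exp (-(1 / 2 * x)) := by rw [Real.sqrt_eq_rpow, hHhalf]
    rw [hsq] at hp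
    have h1 : 9 * (H * Real.exp (-(1 / 2 * x))) + 4 * (H * (2 * x * Real.exp (-(1 / 2 * x)) +
        3 * x * Real.exp (-x ^ β'))) / x ≤ Real.exp (-x ^ β) * (H / (2 * x)) := by
      have h2 : 4 * (H * (2 * x * Real.exp (-(1 / 2 * x)) + 3 * x * Real.exp (-x ^ β'))) / x =
          H * (8 * Real.exp (-(1 / 2 * x)) + 12 * Real.exp (-x ^ β')) := by
        field_simp
        ring
      rw [h2, ← mul_div_assoc, le_div_iff₀ (by positivity)]
      rw [one_mul] at a3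
      calc (9 * (H * Real.exp (-(1 / 2 * x))) + H * (8 * Real.exp (-(1 / 2 * x)) + 12 * Real.exp (-x ^ β'))) *
            (2 * x) = H * ((3 * 18 * x ^ 1 * Real.exp (-(1 / 2 * x)) + 3 * 16 * x ^ 1 * Real.exp (-(1 / 2 * x)) +
              3 * 24 * x ^ 1 * Real.exp (-x ^ β')) / 3) := by ring
        _ ≤ H * Real.exp (-x ^ β) := by
            refine mul_le_mul_of_nonneg_left ?_ hH0.le
            linarith
        _ = _ := mul_comm _ _
    refine (hp.trans h1).trans (mul_le_mul_of_nonneg_left hpi (Real.exp_nonneg _))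

/-- **The digits in a random prime base.** -/
theorem prime_main {R : ℕ} (x : Fin R → ℝ) (hx : Meas x) (κ β : ℝ) (hκ : 0 < κ)
    (hβ0 : 0 < β) (hκβ : 5 * κ + β < 1) :
    ∃ H₀ : ℕ, ∀ H : ℕ, H₀ ≤ H → ∀ k q : ℕ, 1 ≤ q → (k : ℝ) ≤ (Real.log H) ^ κ →
      (q : ℝ) ≤ Real.exp ((Real.log H) ^ β) → ∀ E : Finset (Fin R × Fin k → ℤ),
      (∀ w ∈ E, ∀ p, 0 ≤ w p ∧ w p < q) →
      |(((PR H).filter fun b => (fun p : Fin R × Fin k => cls q b (x p.1) ((p.2 : ℕ) + 2)) ∈ E).card : ℝ) -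
        (PR H).card * (E.card / (q : ℝ) ^ (R * k))| ≤ (PR H).card * Real.exp (-(Real.log H) ^ β) := by
  obtain ⟨κ₀, c, hκ₀, hc, hxm⟩ := hx
  obtain ⟨s, hs⟩ : ∃ s : ℝ, s = (1 - 5 * κ - β) / 3 := ⟨_, rfl⟩
  have hs0 : 0 < s := by rw [hs]; linarith
  obtain ⟨β₁, hβ₁⟩ : ∃ β₁ : ℝ, β₁ = β + s := ⟨_, rfl⟩
  obtain ⟨β₂, hβ₂⟩ : ∃ β₂ : ℝ, β₂ = κ + β + 2 * s := ⟨_, rfl⟩
  obtain ⟨w, hw⟩ : ∃ w : ℕ, w = ⌈κ₀⌉₊ + 1 := ⟨_, rfl⟩
  have hw1 : 1 ≤ w := by omega
  have hwκ : κ₀ ≤ w := by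
    have := Nat.le_ceil κ₀
    rw [hw]
    push_cast
    linarith
  obtain ⟨H₁, hH₁⟩ := primes_asym κ β₂ β₂ w hκ (by linarith) (by linarith) (by linarith) hw1
  obtain ⟨t₀, ht₀⟩ := tv_general R κ β β₁ β₂ hκ hβ0 (by linarith) (by linarith) (by linarith)
  have hlog : Tendsto (fun H : ℕ => Real.log (H : ℝ)) atTop atTop :=
    Real.tendsto_log_atTop.comp tendsto_natCast_atTop_atTop
  have hev : ∀ᶠ t : ℝ in atTop, 2 * w * t ^ β₁ ≤ t ^ β₂ ∧ 2 * (-Real.log c) ≤ t ^ β₂ ∧ t₀ ≤ t ∧ 1 ≤ t := by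
    filter_upwards [ev_pow_le β₁ β₂ (2 * w) (by linarith),
      ev_const_le β₂ (2 * (-Real.log c)) (by linarith), eventually_ge_atTop t₀, eventually_ge_atTop 1]
      with t a1 a2 a3 a4
    exact ⟨a1, a2, a3, a4⟩
  obtain ⟨H₀, hH₀⟩ := eventually_atTop.1 (hlog.eventually hev)
  refine ⟨max H₀ H₁, fun H hH k q hq hk hqβ E hE => ?_⟩
  obtain ⟨a1, a2, a3, a4⟩ := hH₀ H ((le_max_left _ _).trans hH)
  obtain ⟨hcard, hsum⟩ := hH₁ H ((le_max_right _ _).trans hH)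
  obtain ⟨t, ht⟩ : ∃ t : ℝ, t = Real.log H := ⟨_, rfl⟩
  rw [← ht] at a1 a2 a3 a4 hcard hsum hk hqβ ⊢
  refine ht₀ t a3 (PR H) hcard k q hq hk hqβ x (fun u hu huN => ?_) E hE
  obtain ⟨N, hN⟩ : ∃ N : ℝ, N = Real.exp (t ^ β₁) := ⟨_, rfl⟩
  rw [← hN] at huN
  have hN1 : 1 ≤ N := by rw [hN]; exact Real.one_le_exp (by positivity)
  obtain ⟨h1, h2⟩ := fpol_prop x hc hxm u hu N huN
  have h3 := hsum (fpol x u) h1 (le_trans (by exact_mod_cast fpol_natDegree x u) hk) (N ^ w / c)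
    (by positivity) (by
      have h4 : N ^ w / c = Real.exp (w * t ^ β₁ + -Real.log c) := by
        rw [Real.exp_add, Real.exp_neg, Real.exp_log hc, Real.exp_nat_mul, ← hN, div_eq_mul_inv]
      rw [h4]
      exact Real.exp_le_exp.2 (by linarith)) (by
      intro n hn
      have hn1 : (1 : ℝ) ≤ n := by exact_mod_cast hn
      have h4 := h2 n hn
      have h5 : ((n : ℝ) * N) ^ κ₀ ≤ ((n : ℝ) * N) ^ w := by
        rw [← Real.rpow_natCast]
        exact Real.rpow_le_rpow_of_exponent_le (by nlinarith) hwκ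
      have h6 : c ≤ ((n : ℝ) * N) ^ w * dz (n * (fpol x u).leadingCoeff) :=
        h4.trans (mul_le_mul_of_nonneg_right h5 (dz_nonneg _))
      rw [mul_pow] at h6
      rw [mul_comm (fpol x u).leadingCoeff]
      have h7 : N ^ w / c * (n : ℝ) ^ w * dz (n * (fpol x u).leadingCoeff) =
          ((n : ℝ) ^ w * N ^ w * dz (n * (fpol x u).leadingCoeff)) / c := by ring
      rw [h7, le_div_iff₀ hc, one_mul]
      exact h6)
  refine le_trans (le_of_eq ?_) h3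
  congr 1
  refine sum_congr rfl fun b _ => ?_
  rw [fpol_eval]

end Pool.Agent.W2helper84.PB
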